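import Pool.Agent.R351.GD.Hy.Inp
import Pool.Agent.R351.GD.H.Coo

/-!
# Hyperelliptic families: from the Cayley coordinates to the period matrices
-/

set_option autoImplicit false

open Matrix

namespace Pool.Agent.R351.GD.Hy

open Pool.Agent.Y118.HP Pool.Agent.Y118.HG
open Pool.Agent.R351.GD.H (hmg hmg_ev hmg_deg)

variable {n N : ℕ}

/-- the denominator at one block -/
noncomputable def dY (n : ℕ) {N : ℕ} (l : Fin N) : MvPolynomial (Fin N × Sy n) ℚ := De fun p => MvPolynomial.X (l, p)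

/-- the common denominator -/
noncomputable def DY (n N : ℕ) : MvPolynomial (Fin N × Sy n) ℚ := ∏ l, dY n l

/-- the numerators -/
noncomputable def NY (l : Fin N) (p q : Fin n) : MvPolynomial (Fin N × Sy n) ℚ :=
  (∏ l' ∈ Finset.univ.erase l, dY n l') * Nc (fun s => MvPolynomial.X (l, s)) p q

theorem dY_ev (y : Fin N × Sy n → ℂ) (l : Fin N) : MvPolynomial.aeval y (dY n l) = De fun p => y (l, p) := by
  unfold dY
  have h1 := De_map ((MvPolynomial.aeval y : MvPolynomial (Fin N × Sy n) ℚ →ₐ[ℚ] ℂ) :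
    MvPolynomial (Fin N × Sy n) ℚ →+* ℂ) fun p => MvPolynomial.X (l, p)
  have h2 : (fun p => ((MvPolynomial.aeval y : MvPolynomial (Fin N × Sy n) ℚ →ₐ[ℚ] ℂ) :
    MvPolynomial (Fin N × Sy n) ℚ →+* ℂ) (MvPolynomial.X (l, p))) = fun p => y (l, p) := by
    funext p
    exact MvPolynomial.aeval_X _ _
  rw [h2] at h1
  exact h1

theorem DY_ev (y : Fin N × Sy n → ℂ) : MvPolynomial.aeval y (DY n N) = ∏ l, De fun p => y (l, p) := by
  unfold DY
  rw [map_prod]
  exact Finset.prod_congr rfl fun l _ => dY_ev y l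

theorem NY_ev (y : Fin N × Sy n → ℂ) (l : Fin N) (hy : De (fun p => y (l, p)) ≠ 0) (p q : Fin n) :
    MvPolynomial.aeval y (NY l p q) = MvPolynomial.aeval y (DY n N) * Cay (fun p => y (l, p)) p q := by
  classical
  unfold NY DY
  rw [map_mul, ← Finset.prod_erase_mul _ _ (Finset.mem_univ l), map_mul, dY_ev, mul_assoc]
  congr 1
  have h1 := Nc_map ((MvPolynomial.aeval y : MvPolynomial (Fin N × Sy n) ℚ →ₐ[ℚ] ℂ) :
    MvPolynomial (Fin N × Sy n) ℚ →+* ℂ) fun p => MvPolynomial.X (l, p)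
  have h2 : (fun p => ((MvPolynomial.aeval y : MvPolynomial (Fin N × Sy n) ℚ →ₐ[ℚ] ℂ) :
    MvPolynomial (Fin N × Sy n) ℚ →+* ℂ) (MvPolynomial.X (l, p))) = fun p => y (l, p) := by
    funext p
    exact MvPolynomial.aeval_X _ _
  rw [h2] at h1
  have h3 := congrFun (congrFun h1 p) q
  rw [Matrix.map_apply] at h3
  refine h3.trans ?_
  unfold Cay
  rw [Matrix.smul_apply, smul_eq_mul, ← mul_assoc, mul_inv_cancel₀ hy, one_mul]

section
variable {υ τ : Type} (F : IntermediateField ℚ ℂ)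

/-- polynomials over a field, with additional variables -/
noncomputable def emq (p : MvPolynomial τ ℚ) : MvPolynomial (υ ⊕ τ) F :=
  MvPolynomial.rename Sum.inr (MvPolynomial.map (algebraMap ℚ F) p)

theorem emq_deg (p : MvPolynomial τ ℚ) : (emq (υ := υ) F p).totalDegree ≤ p.totalDegree := by
  refine (MvPolynomial.totalDegree_rename_le _ _).trans ?_
  exact Finset.sup_mono (MvPolynomial.support_map_subset _ _)

theorem emq_ev (w : υ → ℂ) (y : τ → ℂ) (p : MvPolynomial τ ℚ) :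
    MvPolynomial.aeval (Sum.elim w y) (emq F p) = MvPolynomial.aeval y p := by
  unfold emq
  rw [MvPolynomial.aeval_rename, Sum.elim_comp_inr, MvPolynomial.aeval_map_algebraMap]

end

/-- the constant matrix with the entries `w (Ai l a b)` -/
def Aw {υ : Type} (w : υ → ℂ) (Ai : Fin N → Fin n → Fin n → υ) (l : Fin N) : Matrix (Fin n) (Fin n) ℂ :=
  Matrix.of fun a b => w (Ai l a b)

/-- the substitution -/
noncomputable def xY {υ : Type} (F : IntermediateField ℚ ℂ) (Ai : Fin N → Fin n → Fin n → υ)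
    (U : Fin N → Matrix (Fin n) (Fin n) ℚ) : υ ⊕ Fin N × Fin n × Fin n → MvPolynomial (υ ⊕ Fin N × Sy n) F :=
  Sum.elim (fun v => MvPolynomial.X (Sum.inl v) * emq F (DY n N)) fun x =>
    ∑ p, ∑ q, (MvPolynomial.X (Sum.inl (Ai x.1 x.2.1 p)) * emq F (NY x.1 p q)) *
      MvPolynomial.C (algebraMap ℚ F (U x.1 q x.2.2))

theorem xY_deg {υ : Type} (F : IntermediateField ℚ ℂ) (Ai : Fin N → Fin n → Fin n → υ)
    (U : Fin N → Matrix (Fin n) (Fin n) ℚ) {c : ℕ} (hc : (DY n N).totalDegree ≤ c)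
    (hc' : ∀ l p q, (NY (n := n) (N := N) l p q).totalDegree ≤ c) (s : υ ⊕ Fin N × Fin n × Fin n) :
    (xY F Ai U s).totalDegree ≤ 1 + c := by
  have hX : ∀ (v : υ) (A : MvPolynomial (υ ⊕ Fin N × Sy n) F), A.totalDegree ≤ c →
      (MvPolynomial.X (Sum.inl v) * A : MvPolynomial (υ ⊕ Fin N × Sy n) F).totalDegree ≤ 1 + c := by
    intro v A hA
    refine (MvPolynomial.totalDegree_mul _ _).trans ?_
    rw [MvPolynomial.totalDegree_X]
    omega
  rcases s with v | x
  · exact hX v _ ((emq_deg F _).trans hc)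
  · show (∑ p, ∑ q, (MvPolynomial.X (Sum.inl (Ai x.1 x.2.1 p)) * emq F (NY x.1 p q)) *
      MvPolynomial.C (algebraMap ℚ F (U x.1 q x.2.2))).totalDegree ≤ 1 + c
    refine (MvPolynomial.totalDegree_finsetSum _ _).trans (Finset.sup_le fun p _ => ?_)
    refine (MvPolynomial.totalDegree_finsetSum _ _).trans (Finset.sup_le fun q _ => ?_)
    refine (MvPolynomial.totalDegree_mul _ _).trans ?_
    rw [MvPolynomial.totalDegree_C, add_zero]
    exact hX _ _ ((emq_deg F _).trans (hc' _ _ _))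

theorem xY_ev {υ : Type} (F : IntermediateField ℚ ℂ) (Ai : Fin N → Fin n → Fin n → υ)
    (U : Fin N → Matrix (Fin n) (Fin n) ℚ) (w : υ → ℂ) (y : Fin N × Sy n → ℂ)
    (hy : ∀ l, De (fun p => y (l, p)) ≠ 0) (s : υ ⊕ Fin N × Fin n × Fin n) :
    MvPolynomial.aeval (Sum.elim w y) (xY F Ai U s) = MvPolynomial.aeval (Sum.elim w y) (emq F (DY n N)) *
      (Sum.elim w (px fun l => Aw w Ai l * Cay (fun p => y (l, p)) * (U l).map (algebraMap ℚ ℂ)) s) := by
  rcases s with v | ⟨l, i, j⟩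
  · show MvPolynomial.aeval _ (MvPolynomial.X (Sum.inl v) * emq F (DY n N)) = _
    rw [map_mul, MvPolynomial.aeval_X, mul_comm]
    rfl
  · show MvPolynomial.aeval _ (∑ p, ∑ q, (MvPolynomial.X (Sum.inl (Ai l i p)) * emq F (NY l p q)) *
      MvPolynomial.C (algebraMap ℚ F (U l q j))) = _ *
      (Aw w Ai l * Cay (fun p => y (l, p)) * (U l).map (algebraMap ℚ ℂ)) i j
    rw [Matrix.mul_apply]
    simp only [Matrix.mul_apply, map_sum, map_mul, MvPolynomial.aeval_X, MvPolynomial.aeval_C, Finset.sum_mul, Finset.mul_sum,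
      emq_ev, NY_ev y l (hy l)]
    rw [Finset.sum_comm]
    refine Finset.sum_congr rfl fun q _ => Finset.sum_congr rfl fun p _ => ?_
    have h6 : (algebraMap F ℂ) (algebraMap ℚ F (U l q j)) = (U l).map (algebraMap ℚ ℂ) q j :=
      (IsScalarTower.algebraMap_apply ℚ F ℂ _).symm
    have h7 : Sum.elim w y (Sum.inl (Ai l i p)) = Aw w Ai l i p := rfl
    rw [h6, h7]
    ring

/-- **from the Cayley coordinates to the matrices** -/
theorem algY (hn : Even n) (N : ℕ) : ∃ c : ℕ, ∀ (F : IntermediateField ℚ ℂ) (υ : Type) (w : υ → ℂ)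
    (Ai : Fin N → Fin n → Fin n → υ) (U : Fin N → Matrix (Fin n) (Fin n) ℚ) (δ : ℕ)
    (Z : Fin N → Matrix (Fin n) (Fin n) ℂ), (∀ l, Z l ∈ SpS ℂ n) → (∀ l, cd (Z l) ≠ 0) →
    (∀ P' : MvPolynomial (υ ⊕ Fin N × Sy n) F, P'.totalDegree ≤ δ * c →
      MvPolynomial.aeval (Sum.elim w fun p : Fin N × Sy n => co (Z p.1) p.2) P' = 0 →
      ∀ y, MvPolynomial.aeval (Sum.elim w y) P' = 0) →
    ∀ P : MvPolynomial (υ ⊕ Fin N × Fin n × Fin n) F, P.totalDegree ≤ δ →
      MvPolynomial.aeval (Sum.elim w (px fun l => Aw w Ai l * Z l * (U l).map (algebraMap ℚ ℂ))) P = 0 →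
      ∀ S : Fin N → Matrix (Fin n) (Fin n) ℂ, (∀ l, S l ∈ SpS ℂ n) →
        MvPolynomial.aeval (Sum.elim w (px fun l => Aw w Ai l * S l * (U l).map (algebraMap ℚ ℂ))) P = 0 := by
  classical
  set c₀ : ℕ := (DY n N).totalDegree + ∑ l : Fin N, ∑ p : Fin n, ∑ q : Fin n, (NY l p q).totalDegree with hc₀
  have hD : (DY n N).totalDegree ≤ c₀ := by rw [hc₀]; omega
  have hN : ∀ (l : Fin N) (p q : Fin n), (NY l p q).totalDegree ≤ c₀ := by
    intro l p q
    have h1 : (NY l p q).totalDegree ≤ ∑ q : Fin n, (NY l p q).totalDegree :=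
      Finset.single_le_sum (f := fun q => (NY l p q).totalDegree) (fun _ _ => Nat.zero_le _) (Finset.mem_univ q)
    have h2 : ∑ q : Fin n, (NY l p q).totalDegree ≤ ∑ p : Fin n, ∑ q : Fin n, (NY l p q).totalDegree :=
      Finset.single_le_sum (f := fun p => ∑ q : Fin n, (NY l p q).totalDegree) (fun _ _ => Nat.zero_le _) (Finset.mem_univ p)
    have h3 : ∑ p : Fin n, ∑ q : Fin n, (NY l p q).totalDegree ≤
        ∑ l : Fin N, ∑ p : Fin n, ∑ q : Fin n, (NY l p q).totalDegree :=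
      Finset.single_le_sum (f := fun l : Fin N => ∑ p : Fin n, ∑ q : Fin n, (NY l p q).totalDegree)
        (fun _ _ => Nat.zero_le _) (Finset.mem_univ l)
    rw [hc₀]
    omega
  refine ⟨1 + c₀, fun F υ w Ai U δ Z hZ hZd hfree P hP hP0 => ?_⟩
  have hDc : (emq (υ := υ) F (DY n N)).totalDegree ≤ 1 + c₀ := (emq_deg F _).trans (hD.trans (Nat.le_add_left _ _))
  have hev := fun (y : Fin N × Sy n → ℂ) (hy : ∀ l, De (fun p => y (l, p)) ≠ 0) =>
    hmg_ev hP (Sum.elim w y) _ (xY_ev F Ai U w y hy)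
  have hevS : ∀ S : Fin N → Matrix (Fin n) (Fin n) ℂ, (∀ l, S l ∈ SpS ℂ n) → (∀ l, cd (S l) ≠ 0) →
      MvPolynomial.aeval (Sum.elim w fun x : Fin N × Sy n => co (S x.1) x.2) (hmg δ P (emq F (DY n N)) (xY F Ai U)) =
      MvPolynomial.aeval (Sum.elim w fun x : Fin N × Sy n => co (S x.1) x.2) (emq F (DY n N)) ^ δ *
        MvPolynomial.aeval (Sum.elim w (px fun l => Aw w Ai l * S l * (U l).map (algebraMap ℚ ℂ))) P := by
    intro S hS hcd
    have h1 := fun l => Cay_co hn (hS l) (hcd l)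
    have h2 := hev (fun x : Fin N × Sy n => co (S x.1) x.2) fun l => (h1 l).1
    have h3 : (fun l => Aw w Ai l * Cay (fun p => (fun x : Fin N × Sy n => co (S x.1) x.2) (l, p)) *
        (U l).map (algebraMap ℚ ℂ)) = fun l => Aw w Ai l * S l * (U l).map (algebraMap ℚ ℂ) := by
      funext l
      have h4 : Cay (fun p => (fun x : Fin N × Sy n => co (S x.1) x.2) (l, p)) = S l := (h1 l).2
      rw [h4]
    rw [h3] at h2
    exact h2
  have hall := hfree (hmg δ P (emq F (DY n N)) (xY F Ai U)) (hmg_deg hP hDc (xY_deg F Ai U hD hN))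
    ((hevS Z hZ hZd).trans (by rw [hP0, mul_zero]))
  -- the polynomial in the matrices
  set L : υ ⊕ Fin N × Fin n × Fin n → MvPolynomial (Fin N × Fin n × Fin n) ℂ :=
    Sum.elim (fun v => MvPolynomial.C (w v)) fun x =>
      ∑ q, ∑ p, MvPolynomial.C (Aw w Ai x.1 x.2.1 p * ((U x.1 q x.2.2 : ℚ) : ℂ)) * MvPolynomial.X (x.1, p, q) with hL
  have hQv : ∀ S : Fin N → Matrix (Fin n) (Fin n) ℂ, MvPolynomial.aeval (px S) (MvPolynomial.aeval L P) =
      MvPolynomial.aeval (Sum.elim w (px fun l => Aw w Ai l * S l * (U l).map (algebraMap ℚ ℂ))) P := by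
    intro S
    have h0 := MvPolynomial.comp_aeval_apply (f := L) ((MvPolynomial.aeval (px S) :
          MvPolynomial (Fin N × Fin n × Fin n) ℂ →ₐ[ℂ] ℂ).restrictScalars F) P
    rw [AlgHom.restrictScalars_apply] at h0
    rw [h0]
    congr 2
    funext o
    rcases o with v | x
    · simp [hL]
    · simp only [hL, Sum.elim_inr, AlgHom.restrictScalars_apply, map_sum, map_mul,
        MvPolynomial.aeval_X, MvPolynomial.aeval_C]
      show _ = (Aw w Ai x.1 * S x.1 * (U x.1).map (algebraMap ℚ ℂ)) x.2.1 x.2.2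
      rw [Matrix.mul_apply]
      refine Finset.sum_congr rfl fun q _ => ?_
      rw [Matrix.mul_apply, Finset.sum_mul]
      refine Finset.sum_congr rfl fun p _ => ?_
      have hpx : px S (x.1, p, q) = S x.1 p q := rfl
      rw [Matrix.map_apply, eq_ratCast, hpx]
      simp only [Algebra.algebraMap_self, RingHom.id_apply]
      ring
  have hden := dense_cay hn (MvPolynomial.aeval L P) (fun S hS hcd => by
    rw [hQv]
    have h1 := fun l => Cay_co hn (hS l) (hcd l)
    have h2 := (hevS S hS hcd).symm.trans (hall fun x : Fin N × Sy n => co (S x.1) x.2)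
    refine (mul_eq_zero.1 h2).resolve_left (pow_ne_zero _ ?_)
    rw [emq_ev, DY_ev]
    exact Finset.prod_ne_zero_iff.2 fun l _ => (h1 l).1)
  intro S hS
  rw [← hQv]
  exact hden S hS

end Pool.Agent.R351.GD.Hy
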