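import Pool.Agent.R351.GD.Hy.Val
import Pool.Agent.R351.GD.P.AH

/-!
# Hyperelliptic families: no relations of small degree between the Cayley coordinates
-/

set_option autoImplicit false

open Matrix Polynomial Filter Topology

namespace Pool.Agent.R351.GD.Hy

open Pool.Agent.Y118.HP Pool.Agent.Y113 Pool.Agent.Y37.GF Pool.Agent.Y118.HG

variable {n : ℕ}

/-- no relations between the coordinates of the values, with exponents polynomial in the degree -/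
theorem inpG (hn : Even n) {a : Fin n → ℝ} (ha : StrictMono a) (ha0 : ∀ i, a i ≠ 0) {m : Fin (n + 1)} {f : ℚ[X]}
    (h0 : InGap a m 0) (hf : f.map (algebraMap ℚ ℝ) = ∏ i, (X - C (a i))) (hf0 : f.coeff 0 ≠ 0) (Δ : ZDat n a m f)
    {G0 : ℕ} (hG0 : 0 < G0) (hsep : ∀ {r : ℕ} (g : Fin r → ℕ), SepN G0 g → Sep a (fun l => (g l : ℝ)))
    {G : ℕ} (hG : G0 ≤ G) (N : ℕ) : ∃ Ev : ℕ → ℕ, PB Ev ∧ ∀ (Δ0 H t : ℕ), (H + 2) ^ Ev Δ0 ≤ t → ∀ g : Fin N → ℕ,
      Function.Injective g → (∀ i, 1 ≤ g i ∧ g i ≤ H) → ∀ P : MvPolynomial (Fin N × Sy n) ℚ, P.totalDegree ≤ Δ0 →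
      MvPolynomial.aeval (fun p : Fin N × Sy n => vl Δ G t (g p.1) p.2) P = 0 → P = 0 := by
  classical
  obtain ⟨B, hB1, hB2⟩ := exists_deg (nums N n) (dens N n)
  obtain ⟨E1, hE1p, hE1⟩ := li_valG hn ha ha0 h0 hf hf0 Δ hsep N
  obtain ⟨ε, hε, hball⟩ := Metric.eventually_nhds_iff.1 ((Ez_mem hn ha h0 hf Δ).and (Ez_cd hn ha h0 hf Δ))
  obtain ⟨E2, hE2⟩ := small_arg G hε
  refine ⟨fun Δ0 => (G + 1) * E1 (Δ0 * B) + E2, ((PB.const (G + 1)).mul (hE1p.comp (PB.id.mul (PB.const B)))).add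
    (PB.const E2), fun Δ0 H t ht g hginj hgH P hP hPv => ?_⟩
  obtain ⟨κ, hfin, b, w, hw, hE1⟩ := hE1 (Δ0 * B)
  have hH2 : 1 ≤ H + 2 := by omega
  have ht : (H + 2) ^ ((G + 1) * E1 (Δ0 * B) + E2) ≤ t := ht
  have ht1 : (G * H + 2) ^ E1 (Δ0 * B) ≤ t := by
    refine le_trans ?_ ((Nat.pow_le_pow_right hH2 (Nat.le_add_right _ _)).trans ht)
    rw [pow_mul]
    refine Nat.pow_le_pow_left ?_ _
    have h2 : G + 1 ≤ 2 ^ G := Nat.lt_two_pow_self
    have h3 : 2 ^ G ≤ (H + 2) ^ G := Nat.pow_le_pow_left (by omega) _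
    rw [pow_succ]
    nlinarith
  have ht2 : (H + 2) ^ E2 ≤ t := (Nat.pow_le_pow_right hH2 (Nat.le_add_left _ _)).trans ht
  obtain ⟨-, hLI⟩ := hE1 (G * H) t ht1
  have hLI := hLI (fun l => G * g l) (by
    intro l l' hll
    have h1 : g l ≠ g l' := fun h => hll (hginj h)
    push_cast
    rw [← mul_sub, abs_mul]
    have h2 : (1 : ℤ) ≤ |(g l : ℤ) - g l'| := Int.one_le_abs (sub_ne_zero.2 (by exact_mod_cast h1))
    have h3 : |(G : ℤ)| = G := abs_of_nonneg (by positivity)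
    rw [h3]
    have h4 : (G0 : ℤ) ≤ G := by exact_mod_cast hG
    nlinarith) (fun l => Nat.mul_le_mul_left _ (hgH l).2)
  have hgood : ∀ l, Ez Δ.Z (1 / ((t : ℝ) - (G * g l : ℕ))) ∈ SpS ℝ n ∧
      cd ((Ez Δ.Z (1 / ((t : ℝ) - (G * g l : ℕ)))).map (algebraMap ℝ ℂ)) ≠ 0 := fun l =>
    hball (by rw [dist_zero_right]; exact (hE2 H t ht2 (g l) (hgH l).2).2)
  set Zc : Fin N → Matrix (Fin n) (Fin n) ℂ := fun l =>
    (Ez Δ.Z (1 / ((t : ℝ) - (G * g l : ℕ)))).map (algebraMap ℝ ℂ) with hZc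
  set Q := cle Δ0 P (nums N n) (dens N n) with hQ
  have hQv : ∀ S : Fin N → Matrix (Fin n) (Fin n) ℂ, (∀ l, cd (S l) ≠ 0) →
      MvPolynomial.aeval (px S) Q = (∏ l, cd (S l)) ^ Δ0 * MvPolynomial.aeval (fun x : Fin N × Sy n => co (S x.1) x.2) P := by
    intro S hS
    rw [hQ, cle_val hP (nums N n) (dens N n) (px S) (fun x : Fin N × Sy n => co (S x.1) x.2)
      (fun x => nums_val hS x), dens_val]
  have hQC : DC (Δ0 * B) (1 : Submodule ℚ ℂ) (Q.map (algebraMap ℚ ℂ)) := by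
    refine ⟨(totalDegree_map_le _ Q).trans (cle_deg hP hB1 hB2), fun s => ?_⟩
    rw [MvPolynomial.coeff_map, Submodule.mem_one]
    exact ⟨Q.coeff s, rfl⟩
  have hQm : ∀ S : Fin N → Matrix (Fin n) (Fin n) ℂ, MvPolynomial.aeval (px S) (Q.map (algebraMap ℚ ℂ)) =
      MvPolynomial.aeval (px S) Q := fun S => MvPolynomial.aeval_map_algebraMap ℂ (px S) Q
  obtain ⟨c, hc, hexp⟩ := expand hw hQC
  choose q hq using fun e => Submodule.mem_one.1 (hc e)
  have hZsp : ∀ l, Zc l ∈ SpS ℂ n := fun l => SpS_map _ (hgood l).1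
  have h1 := hexp Zc hZsp
  rw [hQm, hQv Zc fun l => (hgood l).2] at h1
  have h2 : MvPolynomial.aeval (fun x : Fin N × Sy n => co (Zc x.1) x.2) P = 0 := hPv
  rw [h2, mul_zero] at h1
  have hq0 : ∀ e, q e = 0 := by
    rw [Fintype.linearIndependent_iff] at hLI
    refine hLI q ?_
    have h3 : algebraMap ℝ ℂ (∑ e, q e • ∏ i, mnm (Ez Δ.Z (1 / ((t : ℝ) - (G * g i : ℕ)))) (b (e i))) = 0 := by
      rw [map_sum, h1]
      refine Finset.sum_congr rfl fun e _ => ?_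
      rw [Algebra.smul_def, map_mul, map_prod, ← hq e]
      congr 1
      refine Finset.prod_congr rfl fun l _ => ?_
      rw [hZc]
      simp only
      rw [mnm_map]
    exact (map_eq_zero_iff _ (algebraMap ℝ ℂ).injective).1 h3
  have hvan : ∀ S : Fin N → Matrix (Fin n) (Fin n) ℂ, (∀ l, S l ∈ SpS ℂ n) → MvPolynomial.aeval (px S) Q = 0 := by
    intro S hS
    rw [← hQm, hexp S hS]
    refine Finset.sum_eq_zero fun e _ => ?_
    rw [← hq e, hq0 e, map_zero, zero_mul]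
  have hPC : P.map (algebraMap ℚ ℂ) = 0 := by
    refine chart_zero _ fun y hy => ?_
    rw [MvPolynomial.aeval_map_algebraMap]
    have h3 := fun l => co_Cay hn (hy l)
    have h4 := hQv (fun l => Cay fun p => y (l, p)) fun l => (h3 l).1
    rw [hvan _ fun l => Cay_mem hn (hy l)] at h4
    have h5 : (fun x : Fin N × Sy n => co (Cay fun p => y (x.1, p)) x.2) = y := by
      funext x
      rw [(h3 x.1).2]
    rw [h5] at h4
    exact (mul_eq_zero.1 h4.symm).resolve_left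
      (pow_ne_zero _ (Finset.prod_ne_zero_iff.2 fun l _ => (h3 l).1))
  exact (MvPolynomial.map_injective _ (algebraMap ℚ ℂ).injective) (by rw [hPC, map_zero])

end Pool.Agent.R351.GD.Hy
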