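import Pool.Agent.R351.GD.H.Val
import Pool.Agent.Y118.HG.Nr

/-!
# Hyperelliptic families: bases of the functions of degree at most `δ` on the symplectic group, with bounded coordinates
-/

set_option autoImplicit false

open Matrix Pool.Agent.Y120.GF Pool.Agent.Y120.GH
open Pool.Agent.Y119.HZ (ix)
open Pool.Agent.Y118.HP (jm SpS mnm dg jm_det)
open Pool.Agent.R351.GD.H (Sx sy cN cD cN_map cD_map cay_at cay_mem zm zm_map uu uu_at FF_at clr bas quotA word_c)

namespace Pool.Agent.R351.GD.Hy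

variable {n : ℕ}

theorem jm_int (R : Type) [CommRing R] (n : ℕ) : jm R n = (Int.castRingHom R).mapMatrix (jm ℤ n) := by
  ext i j
  unfold jm
  rw [RingHom.mapMatrix_apply, map_apply, of_apply, of_apply]
  split_ifs <;> simp

/-- the integral inverse of the form -/
structure KJ (n : ℕ) (d : ℕ) (K : Matrix (Fin n) (Fin n) ℤ) : Prop where
  ne : d ≠ 0
  jk : jm ℤ n * K = (d : ℤ) • (1 : Matrix (Fin n) (Fin n) ℤ)
  kj : K * jm ℤ n = (d : ℤ) • (1 : Matrix (Fin n) (Fin n) ℤ)

theorem map_inj_q {A B : Matrix (Fin n) (Fin n) ℤ}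
    (h : (Int.castRingHom ℚ).mapMatrix A = (Int.castRingHom ℚ).mapMatrix B) : A = B := by
  ext i j
  have h1 := congrFun (congrFun h i) j
  rw [RingHom.mapMatrix_apply, map_apply, RingHom.mapMatrix_apply, map_apply, eq_intCast, eq_intCast] at h1
  exact_mod_cast h1

theorem map_smul_one (R : Type) [CommRing R] (d : ℕ) :
    (Int.castRingHom R).mapMatrix ((d : ℤ) • (1 : Matrix (Fin n) (Fin n) ℤ)) = (d : R) • (1 : Matrix (Fin n) (Fin n) R) := by
  ext i j
  rw [RingHom.mapMatrix_apply, map_apply, Matrix.smul_apply, Matrix.smul_apply, one_apply, one_apply]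
  split_ifs <;> simp

theorem exists_KJ (hn : Even n) : ∃ (d : ℕ) (K : Matrix (Fin n) (Fin n) ℤ), KJ n d K := by
  obtain ⟨d, K, h1, h2⟩ := clr (jm ℚ n)⁻¹
  have hu : IsUnit (jm ℚ n).det := (jm_det hn).isUnit
  refine ⟨d, K, h1, ?_, ?_⟩
  · refine map_inj_q ?_
    rw [map_smul_one, map_mul, ← jm_int, h2, mul_smul_comm, mul_nonsing_inv _ hu]
  · refine map_inj_q ?_
    rw [map_smul_one, map_mul, ← jm_int, h2, smul_mul_assoc, nonsing_inv_mul _ hu]

theorem KJ.at {d : ℕ} {K : Matrix (Fin n) (Fin n) ℤ} (h : KJ n d K) (R : Type) [CommRing R] :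
    jm R n * zm K = (d : R) • (1 : Matrix (Fin n) (Fin n) R) ∧ zm K * jm R n = (d : R) • (1 : Matrix (Fin n) (Fin n) R) := by
  constructor
  · have h1 := congrArg (Int.castRingHom R).mapMatrix h.jk
    rw [map_mul, map_smul_one, ← jm_int] at h1
    exact h1
  · have h1 := congrArg (Int.castRingHom R).mapMatrix h.kj
    rw [map_mul, map_smul_one, ← jm_int] at h1
    exact h1

/-- the exponents of a word, for the transposed matrix -/
def ew {δ : ℕ} (w : Fin δ → Option (Fin (n * n))) (p : Fin n × Fin n) : ℕ :=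
  (Finset.univ.filter fun i => w i = some ((ix n).symm (p.2, p.1))).card

theorem mnm_ew {R : Type} [CommRing R] (X : Matrix (Fin n) (Fin n) R) {δ : ℕ} (w : Fin δ → Option (Fin (n * n))) :
    mnm X (ew w) = yw (fun j => X (ix n j).2 (ix n j).1) w := by
  classical
  unfold mnm yw ew
  have h1 : ∀ i, (w i).elim 1 (fun j => X (ix n j).2 (ix n j).1) =
      ∏ p : Fin n × Fin n, if w i = some ((ix n).symm (p.2, p.1)) then X p.1 p.2 else 1 := by
    intro i
    rcases w i with _ | j
    · simp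
    · rw [Finset.prod_eq_single ((ix n j).2, (ix n j).1)]
      · simp
      · intro p _ hp
        rw [if_neg]
        intro h
        apply hp
        have h2 : j = (ix n).symm (p.2, p.1) := Option.some_injective _ h
        rw [h2, Equiv.apply_symm_apply]
      · intro h
        exact absurd (Finset.mem_univ _) h
  rw [Finset.prod_congr rfl fun i _ => h1 i, Finset.prod_comm]
  refine Finset.prod_congr rfl fun p _ => ?_
  rw [Finset.prod_ite, Finset.prod_const, Finset.prod_const_one, mul_one]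

theorem ew_deg {δ : ℕ} (w : Fin δ → Option (Fin (n * n))) : dg (ew w) ≤ δ := by
  classical
  unfold dg ew
  have h1 : ∑ p : Fin n × Fin n, (Finset.univ.filter fun i => w i = some ((ix n).symm (p.2, p.1))).card =
      ∑ p : Fin n × Fin n, ∑ i : Fin δ, if w i = some ((ix n).symm (p.2, p.1)) then 1 else 0 :=
    Finset.sum_congr rfl fun p _ => Finset.card_filter _ _
  rw [h1, Finset.sum_comm]
  refine (Finset.sum_le_card_nsmul _ _ 1 fun i _ => ?_).trans (by simp)
  rcases hw : w i with _ | j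
  · simp
  · rw [Finset.sum_eq_single ((ix n j).2, (ix n j).1)]
    · split_ifs <;> omega
    · intro p _ hp
      rw [if_neg]
      intro h
      apply hp
      have h2 : j = (ix n).symm (p.2, p.1) := Option.some_injective _ h
      rw [h2, Equiv.apply_symm_apply]
    · intro h
      exact absurd (Finset.mem_univ _) h

theorem ew_none {δ : ℕ} : (ew fun _ : Fin δ => (none : Option (Fin (n * n)))) = 0 := by
  funext p
  unfold ew
  simp

/-- words for monomials -/
theorem exists_word {δ : ℕ} (s : Fin n × Fin n → ℕ) (hs : dg s ≤ δ) :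
    ∃ w : Fin δ → Option (Fin (n * n)), ∀ X : Matrix (Fin n) (Fin n) ℂ, mnm X (ew w) = mnm X s := by
  obtain ⟨f, hf⟩ := word_c (n * n) δ (fun j => s ((ix n j).2, (ix n j).1)) (by
    refine le_trans (le_of_eq ?_) hs
    unfold dg
    exact Equiv.sum_comp ((ix n).trans (Equiv.prodComm _ _)) s)
  refine ⟨f, fun X => ?_⟩
  rw [mnm_ew, hf]
  unfold mnm
  exact Equiv.prod_comp ((ix n).trans (Equiv.prodComm _ _)) fun p => X p.1 p.2 ^ s p

/-- **a basis of the functions of degree at most `δ` on the group** -/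
theorem basG (hn : Even n) : ∃ E : ℕ → ℕ, PB E ∧ ∀ δ : ℕ, ∃ (B : Finset (Fin δ → Option (Fin (n * n)))) (a : ℤ)
    (M : (Fin δ → Option (Fin (n * n))) → B → ℤ), a ≠ 0 ∧ (fun _ => none) ∈ B ∧ |a| ≤ 2 ^ E δ ∧
      (∀ w b, |M w b| ≤ 2 ^ E δ) ∧ B.card ≤ E δ ∧
      (∀ w, ∀ g ∈ SpS ℂ n, (a : ℂ) * mnm g (ew w) = ∑ b : B, (M w b : ℂ) * mnm g (ew b.1)) ∧
      ∀ x : B → ℂ, (∀ g ∈ SpS ℂ n, ∑ b : B, x b * mnm g (ew b.1) = 0) → x = 0 := by
  classical
  obtain ⟨d, K, hK⟩ := exists_KJ hn
  obtain ⟨hJK, hKJ⟩ := hK.at ℂ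
  have hJ : (jm ℂ n)ᵀ = -jm ℂ n := Pool.Agent.Y118.HG.jm_transpose'
  have hdc : ((d : ℕ) : ℂ) ≠ 0 := by exact_mod_cast hK.ne
  have h40 : ∀ R : Type, ∀ [CommRing R], (sy fun _ : Sx n => (0 : R)) = 0 := by
    intro R _
    ext i j
    unfold sy
    rw [of_apply]
    split_ifs <;> rfl
  have huu : MvPolynomial.eval (fun _ => (0 : ℤ)) (uu K none) ≠ 0 := by
    have hD := (uu_at K (MvPolynomial.eval (fun _ : Sx n => (0 : ℤ)))).1
    rw [hD]
    have h3 : (fun p : Sx n => MvPolynomial.eval (fun _ : Sx n => (0 : ℤ)) (MvPolynomial.X p)) = fun _ : Sx n => (0 : ℤ) := by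
      funext p
      rw [MvPolynomial.eval_X]
    rw [h3]
    unfold cD
    rw [h40, mul_zero, sub_zero, det_one]
    exact one_ne_zero
  obtain ⟨E, hE, hbas⟩ := bas (uu K) none huu
  refine ⟨E, hE, fun δ => ?_⟩
  obtain ⟨B, a, M, ha0, h0B, ha, hM, hB, hrel, hli⟩ := hbas δ
  refine ⟨B, a, M, ha0, h0B, ha, hM, hB, fun w => ?_, fun x hx => ?_⟩
  · -- the relation at the points of the chart
    have hch : ∀ g ∈ SpS ℂ n, Pool.Agent.Y118.HG.cd g ≠ 0 →
        (a : ℂ) * mnm g (ew w) = ∑ b : B, (M w b : ℂ) * mnm g (ew b.1) := by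
      intro g hg hcd
      have hZ : gᵀᵀ * jm ℂ n * gᵀ = jm ℂ n := by
        rw [transpose_transpose]
        exact hg
      have hdet : (gᵀ + 1).det ≠ 0 := by
        have h1 : gᵀ + 1 = (g + 1)ᵀ := by rw [transpose_add, transpose_one]
        rw [h1, det_transpose]
        exact hcd
      set W := (gᵀ + 1)⁻¹ with hW
      have hW1 : (gᵀ + 1) * W = 1 := mul_nonsing_inv _ (isUnit_iff_ne_zero.2 hdet)
      set S : Matrix (Fin n) (Fin n) ℂ := (1 / (d : ℂ)) • (jm ℂ n * ((gᵀ - 1) * W)) with hS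
      set f : MvPolynomial (Sx n) ℤ →+* ℂ := MvPolynomial.eval₂Hom (Int.castRingHom _) (fun p => S p.1.1 p.1.2) with hf0
      have hfX : (fun p => f (MvPolynomial.X p)) = fun p : Sx n => S p.1.1 p.1.2 := by
        funext p
        rw [hf0, MvPolynomial.eval₂Hom_X']
      obtain ⟨h1, h2⟩ := cay_at (s := fun p => f (MvPolynomial.X p)) hJ hKJ
        (e := 1 / (d : ℂ)) (by rw [one_div, inv_mul_cancel₀ hdc]) hZ hW1
        (fun p => by rw [congrFun hfX p])
      set D₀ := cD (zm K) (fun p => f (MvPolynomial.X p)) with hD₀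
      have hD0 : D₀ ≠ 0 := by
        intro h0
        rw [h0, zero_mul] at h2
        exact pow_ne_zero n (two_ne_zero (α := ℂ)) h2.symm
      have h3 := congrArg f (hrel w)
      rw [map_mul, map_sum, FF_at K f h1] at h3
      simp only [map_mul] at h3
      have h4 : ∀ z : ℤ, f (MvPolynomial.C z) = (z : ℂ) := fun z => by
        rw [hf0, MvPolynomial.eval₂Hom_C, eq_intCast]
      rw [h4] at h3
      have hy : ∀ v : Fin δ → Option (Fin (n * n)), mnm g (ew v) = yw (fun j => gᵀ (ix n j).1 (ix n j).2) v := fun v =>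
        mnm_ew g v
      refine mul_left_cancel₀ (pow_ne_zero δ hD0) ?_
      calc D₀ ^ δ * ((a : ℂ) * mnm g (ew w)) =
            (a : ℂ) * (D₀ ^ δ * yw (fun j => gᵀ (ix n j).1 (ix n j).2) w) := by rw [hy]; ring
        _ = ∑ b, f (MvPolynomial.C (M w b)) * f (∏ i, uu K (b.1 i)) := h3
        _ = _ := by
            rw [Finset.mul_sum]
            refine Finset.sum_congr rfl fun b _ => ?_
            rw [h4, FF_at K f h1, hy]
            ring
    intro g hg
    set mm : (Fin n × Fin n → ℕ) → MvPolynomial (Fin 1 × Fin n × Fin n) ℂ := fun s =>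
      ∏ p : Fin n × Fin n, MvPolynomial.X (0, p.1, p.2) ^ s p with hmm
    have hmv : ∀ (s : Fin n × Fin n → ℕ) (S : Fin 1 → Matrix (Fin n) (Fin n) ℂ),
        MvPolynomial.aeval (Pool.Agent.Y118.HG.px S) (mm s) = mnm (S 0) s := by
      intro s S
      rw [hmm]
      simp only [map_prod, map_pow, MvPolynomial.aeval_X]
      rfl
    have hQv : ∀ S : Fin 1 → Matrix (Fin n) (Fin n) ℂ, MvPolynomial.aeval (Pool.Agent.Y118.HG.px S)
        (MvPolynomial.C (a : ℂ) * mm (ew w) - ∑ b : B, MvPolynomial.C ((M w b : ℤ) : ℂ) * mm (ew b.1)) =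
        (a : ℂ) * mnm (S 0) (ew w) - ∑ b : B, (M w b : ℂ) * mnm (S 0) (ew b.1) := by
      intro S
      rw [map_sub, map_mul, map_sum, MvPolynomial.aeval_C, hmv]
      congr 1
      refine Finset.sum_congr rfl fun b _ => ?_
      rw [map_mul, MvPolynomial.aeval_C, hmv]
      rfl
    have h1 := Pool.Agent.Y118.HG.dense_cay hn
      (MvPolynomial.C (a : ℂ) * mm (ew w) - ∑ b : B, MvPolynomial.C ((M w b : ℤ) : ℂ) * mm (ew b.1))
      (fun S hS hcd => by rw [hQv, hch _ (hS 0) (hcd 0), sub_self]) (fun _ => g) fun _ => hg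
    rw [hQv] at h1
    exact sub_eq_zero.1 h1
  · -- independence
    set P : MvPolynomial (Sx n) ℂ := ∑ b : B, MvPolynomial.C (x b) *
      MvPolynomial.map (Int.castRingHom ℂ) (∏ i, uu K (b.1 i)) with hP
    have hprod : P * MvPolynomial.map (Int.castRingHom ℂ) (uu K none) = 0 := by
      refine MvPolynomial.funext fun s => ?_
      rw [map_mul, map_zero]
      set f : MvPolynomial (Sx n) ℤ →+* ℂ := (MvPolynomial.eval s).comp (MvPolynomial.map (Int.castRingHom ℂ)) with hf0
      have hfX : (fun p => f (MvPolynomial.X p)) = s := by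
        funext p
        rw [hf0, RingHom.comp_apply, MvPolynomial.map_X, MvPolynomial.eval_X]
      have hD := (uu_at K f).1
      rw [hfX] at hD
      show _ * f (uu K none) = 0
      rw [hD]
      by_cases hD0 : cD (zm K) s = 0
      · rw [hD0, mul_zero]
      set Z : Matrix (Fin n) (Fin n) ℂ := (cD (zm K) s)⁻¹ • cN (zm K) s with hZ
      have hZm : Z.transpose * jm ℂ n * Z = jm ℂ n := cay_mem hJ hJK hD0
      have hNZ : cN (zm K) (fun p => f (MvPolynomial.X p)) = cD (zm K) (fun p => f (MvPolynomial.X p)) • Z := by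
        rw [hfX, hZ, smul_smul, mul_inv_cancel₀ hD0, one_smul]
      have h1 := hx Zᵀ (by
        show Zᵀ * jm ℂ n * Zᵀᵀ = jm ℂ n
        rw [transpose_transpose]
        exact hZm)
      have h4 : MvPolynomial.eval s P = cD (zm K) s ^ δ * ∑ b : B, x b * mnm Zᵀ (ew b.1) := by
        rw [hP, map_sum, Finset.mul_sum]
        refine Finset.sum_congr rfl fun b _ => ?_
        rw [map_mul, MvPolynomial.eval_C]
        have h5 := FF_at K f hNZ b.1
        rw [hfX] at h5
        have h6 : MvPolynomial.eval s (MvPolynomial.map (Int.castRingHom ℂ) (∏ i, uu K (b.1 i))) = f (∏ i, uu K (b.1 i)) := rfl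
        have h7 : mnm Zᵀ (ew b.1) = yw (fun j => Z (ix n j).1 (ix n j).2) b.1 := mnm_ew Zᵀ b.1
        rw [h6, h5, h7]
        ring
      rw [h4, h1, mul_zero, zero_mul]
    have hP0 : P = 0 := by
      refine (mul_eq_zero.1 hprod).resolve_right fun h0 => ?_
      have h1 := congrArg (MvPolynomial.eval (fun _ : Sx n => (0 : ℂ))) h0
      rw [map_zero] at h1
      have hD := (uu_at K ((MvPolynomial.eval (fun _ : Sx n => (0 : ℂ))).comp (MvPolynomial.map (Int.castRingHom ℂ)))).1
      have h2 : (MvPolynomial.eval (fun _ : Sx n => (0 : ℂ))).comp (MvPolynomial.map (Int.castRingHom ℂ)) (uu K none) = 0 := h1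
      rw [h2] at hD
      have h3 : (fun p => ((MvPolynomial.eval (fun _ : Sx n => (0 : ℂ))).comp (MvPolynomial.map (Int.castRingHom ℂ)))
          (MvPolynomial.X p)) = fun _ : Sx n => (0 : ℂ) := by
        funext p
        rw [RingHom.comp_apply, MvPolynomial.map_X, MvPolynomial.eval_X]
      rw [h3] at hD
      unfold cD at hD
      rw [h40, mul_zero, sub_zero, det_one] at hD
      exact zero_ne_one hD
    funext b₀
    refine (Module.forall_dual_apply_eq_zero_iff ℚ (x b₀)).1 fun φ => ?_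
    refine hli (fun b => φ (x b)) ?_ b₀
    ext m
    rw [MvPolynomial.coeff_sum, MvPolynomial.coeff_zero]
    have h1 := congrArg (MvPolynomial.coeff m) hP0
    rw [hP, MvPolynomial.coeff_sum, MvPolynomial.coeff_zero] at h1
    have h2 := congrArg φ h1
    rw [map_sum, map_zero] at h2
    rw [← h2]
    refine Finset.sum_congr rfl fun b _ => ?_
    rw [MvPolynomial.coeff_C_mul, MvPolynomial.coeff_C_mul, MvPolynomial.coeff_map, MvPolynomial.coeff_map]
    have h3 : x b * (Int.castRingHom ℂ) (MvPolynomial.coeff m (∏ i, uu K (b.1 i))) =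
        (MvPolynomial.coeff m (∏ i, uu K (b.1 i)) : ℤ) • x b := by
      rw [zsmul_eq_mul, eq_intCast, mul_comm]
    rw [h3, map_zsmul, zsmul_eq_mul, eq_intCast, mul_comm]

end Pool.Agent.R351.GD.Hy
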