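import Pool.Agent.R351.GD.Hy.Tup
import Pool.Agent.Y123.SR.R7

/-!
# Hyperelliptic families: subtorsors over number fields of growing degree
-/

set_option autoImplicit false

open Module Filter Topology
open Polynomial (X C aeval)
open scoped Polynomial

namespace Pool.Agent.R351.GD.Hy

open Pool.Agent.Y118.HP Pool.Agent.Y37.GF Pool.Agent.Y118.HG Pool.Agent.Y123.SR

/-- the field as an intermediate field -/
def sfI (K : Subfield ℂ) : IntermediateField ℚ ℂ :=
  { K with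
    algebraMap_mem' := fun x => by
      rw [eq_ratCast]
      exact SubfieldClass.ratCast_mem K x }

theorem sfI_mem {K : Subfield ℂ} {x : ℂ} : x ∈ sfI K ↔ x ∈ K := Iff.rfl

/-- the linear equivalence -/
def sfE (K : Subfield ℂ) : K ≃ₗ[ℚ] sfI K :=
  { toFun := fun x => ⟨x.1, x.2⟩
    invFun := fun x => ⟨x.1, x.2⟩
    map_add' := fun _ _ => rfl
    map_smul' := fun q x => by
      apply Subtype.ext
      show ((q • x : K) : ℂ) = q • (x : ℂ)
      rw [Algebra.smul_def, Algebra.smul_def]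
      rfl
    left_inv := fun _ => rfl
    right_inv := fun _ => rfl }

theorem sfI_fin {K : Subfield ℂ} (h : FiniteDimensional ℚ K) : FiniteDimensional ℚ (sfI K) :=
  Module.Finite.equiv (sfE K)

theorem sfI_rank {K : Subfield ℂ} {D : ℕ} (h : finrank ℚ K ≤ D) : finrank ℚ (sfI K) ≤ D := by
  rw [← (sfE K).finrank_eq]
  exact h

section
variable {F : IntermediateField ℚ ℂ}

/-- the powers of a space over a field, as a space over the rationals -/
theorem pow_restrict (V : Submodule F ℂ) (k : ℕ) {x : ℂ} (hx : x ∈ (V.restrictScalars ℚ) ^ (k + 1)) : x ∈ V ^ (k + 1) := by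
  induction k generalizing x with
  | zero =>
    rw [zero_add, pow_one] at hx ⊢
    exact hx
  | succ k ih =>
    rw [pow_succ] at hx ⊢
    refine Submodule.mul_induction_on hx (fun a ha b hb => ?_) fun a b ha hb => Submodule.add_mem _ ha hb
    exact Submodule.mul_mem_mul (ih ha) hb

end

/-- polynomials with coefficients in a space generated by products of constants -/
theorem lift_poly {F : IntermediateField ℚ ℂ} {υ κ : Type} (w : υ → ℂ) (e d : ℕ) (P : MvPolynomial κ ℂ)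
    (hP : P.totalDegree ≤ d) (hc : ∀ s, P.coeff s ∈ (Submodule.span F (insert (1 : ℂ) (Set.range w))) ^ e) :
    ∃ P' : MvPolynomial (υ ⊕ κ) F, P'.totalDegree ≤ e + d ∧
      ∀ x : κ → ℂ, MvPolynomial.aeval (Sum.elim w x) P' = MvPolynomial.eval x P := by
  classical
  choose p hpd hpv using fun s => Pool.Agent.Y916.Om.lift_pow w e (hc s)
  refine ⟨∑ s ∈ P.support, MvPolynomial.rename Sum.inl (p s) *
    MvPolynomial.rename Sum.inr (MvPolynomial.monomial s (1 : F)), ?_, fun x => ?_⟩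
  · refine MvPolynomial.totalDegree_finsetSum_le fun s hs => ?_
    refine (MvPolynomial.totalDegree_mul _ _).trans (add_le_add ?_ ?_)
    · exact (MvPolynomial.totalDegree_rename_le _ _).trans (hpd s)
    · refine (MvPolynomial.totalDegree_rename_le _ _).trans ?_
      refine (MvPolynomial.totalDegree_monomial_le _ _).trans ?_
      exact (MvPolynomial.le_totalDegree hs).trans hP
  · rw [map_sum]
    conv_rhs => rw [MvPolynomial.as_sum P, map_sum]
    refine Finset.sum_congr rfl fun s _ => ?_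
    rw [map_mul, MvPolynomial.aeval_rename, MvPolynomial.aeval_rename, Sum.elim_comp_inl, Sum.elim_comp_inr, hpv,
      MvPolynomial.aeval_monomial, map_one, one_mul, MvPolynomial.eval_monomial]

section
variable {B₀ : Type} [Fintype B₀] [DecidableEq B₀]

/-- the constants: the entries of the period matrix of the fixed object and of its inverse -/
noncomputable def wS (c₀ : Matrix B₀ B₀ ℂ) (b₀ : B₀) : (B₀ × B₀) ⊕ (B₀ × B₀) → ℂ :=
  Sum.elim (fun p => c₀ p.1 p.2) fun p => (c₀ b₀ b₀ • c₀⁻¹) p.1 p.2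

/-- the property of a tuple of fibres: all subtorsors over number fields of degree at most `D` are fibre products -/
def AllSub {n N : ℕ} (D : ℕ) (b₀ : B₀) (c₀ : Matrix B₀ B₀ ℂ) (a : Fin N → Fin n → ℝ) (m : Fin N → Fin (n + 1))
    (f : Fin N → ℚ[X]) (t : Fin N → ℕ) : Prop :=
  (∀ j, StrictMono (er (a j) (m j) (1 / (t j : ℝ)))) ∧
  ((fun j => Matrix.of (cper (er (a j) (m j) (1 / (t j : ℝ))))), c₀ b₀ b₀) ∈
    Tor (fun j => (-1 / 2 : ℂ) • (qm n (f j * (X - C (1 / (t j : ℚ))))).map (algebraMap ℚ ℂ)) ∧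
  ∀ K : Subfield ℂ, FiniteDimensional ℚ K → finrank ℚ K ≤ D →
    ∀ T' : Set (Matrix (I2 B₀ n N) (I2 B₀ n N) ℂ), Pool.Agent.TH127.PT.IsSubtorsor K T' →
    E2 c₀ (fun j => Matrix.of (cper (er (a j) (m j) (1 / (t j : ℝ))))) ∈ T' →
    T' ⊆ FP (fun j => (-1 / 2 : ℂ) • (qm n (f j * (X - C (1 / (t j : ℚ))))).map (algebraMap ℚ ℂ)) b₀ {x | IsUnit x} →
    Pool.Agent.TH127.PT.IsSubtorsor K {x : Matrix B₀ B₀ ℂ | ∃ X, E2 x X ∈ T'} ∧
    T' = FP (fun j => (-1 / 2 : ℂ) • (qm n (f j * (X - C (1 / (t j : ℚ))))).map (algebraMap ℚ ℂ)) b₀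
      {x : Matrix B₀ B₀ ℂ | ∃ X, E2 x X ∈ T'}

end

open Classical in
/-- **subtorsors over number fields of growing degree** -/
theorem sub_tuples {n : ℕ} (hn : Even n) (hn0 : 0 < n) (N : ℕ) (a : Fin N → Fin n → ℝ) (f : Fin N → ℚ[X])
    (hf : ∀ j, (f j).map (algebraMap ℚ ℝ) = ∏ i, (X - C (a j i))) (m : Fin N → Fin (n + 1))
    (h0 : ∀ j, StrictMono (er (a j) (m j) 0)) (r : ℕ) :
    ∃ C₀ : ℕ, ∀ (B₀ : Type) [Fintype B₀] [DecidableEq B₀] (b₀ : B₀) (c₀ : Matrix B₀ B₀ ℂ), Fintype.card B₀ = r →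
      IsUnit c₀ → Cm b₀ c₀ → c₀ b₀ b₀ = 2 * Real.pi * Complex.I → ∀ (D T : ℕ), 1 ≤ T →
      (((Fintype.piFinset fun _ : Fin N => Finset.Icc 1 T).filter fun t => ¬ AllSub D b₀ c₀ a m f t).card : ℝ) ≤
      C₀ * (T : ℝ) ^ ((N : ℝ) - 1 / ((D : ℝ) + 2) ^ C₀) := by
  have ha : ∀ j, StrictMono (a j) := fun j => (inGap_of_er (h0 j)).1
  have hg0 : ∀ j, InGap (a j) (m j) 0 := fun j => (inGap_of_er (h0 j)).2
  obtain ⟨d, hd⟩ := rel_all n hn hn0
  obtain ⟨C₁, hC₁⟩ := tupY hn ha hg0 hf (r * r + r * r)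
  obtain ⟨b, hb⟩ : PB fun D => (D + (4 + d) + 2) ^ C₁ := ((PB.id.add (PB.const (4 + d))).add (PB.const 2)).pow C₁
  refine ⟨C₁ + b, fun B₀ _ _ b₀ c₀ hr hc0 hcm hlam D T hT => ?_⟩
  have hT1 : (1 : ℝ) ≤ T := by exact_mod_cast hT
  have hcard : Fintype.card ((B₀ × B₀) ⊕ (B₀ × B₀)) = r * r + r * r := by
    rw [Fintype.card_sum, Fintype.card_prod, hr]
  have h1 := hC₁ (D + (4 + d)) _ hcard (wS c₀ b₀) T hT
  have h2pi : (2 * Real.pi * Complex.I : ℂ) ≠ 0 := by
    have := Complex.I_ne_zero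
    have h2 : (Real.pi : ℂ) ≠ 0 := by exact_mod_cast Real.pi_ne_zero
    exact mul_ne_zero (mul_ne_zero two_ne_zero h2) this
  have hsub : ((Fintype.piFinset fun _ : Fin N => Finset.Icc 1 T).filter fun t => ¬ AllSub D b₀ c₀ a m f t) ⊆
      (Fintype.piFinset fun _ : Fin N => Finset.Icc 1 T).filter fun t =>
        ¬ ((∀ l, InGap (a l) (m l) (1 / (t l : ℝ))) ∧ GenY (D + (4 + d)) (wS c₀ b₀) a m f t) := by
    intro t ht
    obtain ⟨ht1, ht2⟩ := Finset.mem_filter.1 ht
    refine Finset.mem_filter.2 ⟨ht1, fun h => ht2 ?_⟩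
    obtain ⟨hgap, hgen⟩ := h
    have hgap' : ∀ j, InGap (a j) (m j) (((1 / (t j : ℚ) : ℚ)) : ℝ) := fun j => by
      rw [castR]
      exact hgap j
    have hpt : (fun j => Matrix.of (cper (er (a j) (m j) (1 / (t j : ℝ))))) =
        fun j => CM (a j) (m j) (((1 / (t j : ℚ) : ℚ)) : ℝ) := by
      funext j
      rw [castR]
      rfl
    have hpt' : (fun j => CM (a j) (m j) (1 / (t j : ℝ))) = fun j => CM (a j) (m j) (((1 / (t j : ℚ) : ℚ)) : ℝ) := by
      funext j
      rw [castR]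
    have hQe : (fun j => (-1 / 2 : ℂ) • (qm n (f j * (X - C (1 / (t j : ℚ))))).map (algebraMap ℚ ℂ)) =
        fun j => (-1 / 2 : ℂ) • (Qp n (f j)).map (aeval ((1 / (t j : ℚ) : ℚ) : ℂ)) := by
      funext j
      rw [qm_eq]
    have htor : ((fun j => CM (a j) (m j) (((1 / (t j : ℚ) : ℚ)) : ℝ)), c₀ b₀ b₀) ∈
        Tor (fun j => (-1 / 2 : ℂ) • (Qp n (f j)).map (aeval ((1 / (t j : ℚ) : ℚ) : ℂ))) := by
      rw [hlam]
      exact ⟨h2pi, fun j => CM_mem hn (ha j) (hf j) (hgap' j)⟩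
    refine ⟨fun j => er_of_inGap (ha j) (hgap j), ?_, fun K hKf hKD => ?_⟩
    · rw [hpt, hQe]
      exact htor
    · set V : Submodule (sfI K) ℂ := Submodule.span (sfI K) (insert (1 : ℂ) (Set.range (wS c₀ b₀))) with hV
      rw [hpt, hQe]
      refine hd B₀ b₀ N K (V.restrictScalars ℚ) _ _ c₀ ?_ ?_ ?_ ?_ ?_ hc0 hcm htor ?_
      · intro x hx
        have : NumberField K := { to_charZero := inferInstance, to_finiteDimensional := hKf }
        have h6 : IsAlgebraic ℚ (⟨x, hx⟩ : K) := Algebra.IsAlgebraic.isAlgebraic _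
        exact h6.algebraMap (A := ℂ)
      · intro x hx
        have h5 : (⟨x, hx⟩ : sfI K) • (1 : ℂ) = x := by
          rw [Algebra.smul_def, mul_one]
          rfl
        have h6 : (⟨x, hx⟩ : sfI K) • (1 : ℂ) ∈ V :=
          Submodule.smul_mem V _ (Submodule.subset_span (Set.mem_insert _ _))
        rw [h5] at h6
        exact h6
      · intro i j
        exact Submodule.subset_span (R := sfI K) (Or.inr ⟨Sum.inl (i, j), rfl⟩)
      · intro i j
        exact Submodule.subset_span (R := sfI K) (Or.inr ⟨Sum.inr (i, j), rfl⟩)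
      · intro j a' b'
        have h7 := Pool.Agent.Y123.ST.half_mem (K := K)
          (Q := fun j => (qm n (f j * (X - C (1 / (t j : ℚ))))).map (algebraMap ℚ ℂ))
          (fun j a b => SubfieldClass.ratCast_mem K _) j a' b'
        simp only [qm_eq] at h7
        exact h7
      · intro P hPd hPc hPv X' hX'
        rw [hlam] at hX'
        obtain ⟨P', hP'd, hP'v⟩ := lift_poly (F := sfI K) (wS c₀ b₀) 4 d P hPd fun s => pow_restrict V 3 (hPc s)
        have h8 := hgen (sfI K) (sfI_fin hKf) ((sfI_rank hKD).trans (Nat.le_add_right _ _)) P'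
          (hP'd.trans (Nat.le_add_left _ _)) (by
            rw [hpt', hP'v]
            exact hPv) X' (fun j => hX'.2 j)
        rw [hP'v] at h8
        exact h8
  have h3 : ((((Fintype.piFinset fun _ : Fin N => Finset.Icc 1 T).filter fun t => ¬ AllSub D b₀ c₀ a m f t).card : ℕ) : ℝ) ≤
      C₁ * (T : ℝ) ^ ((N : ℝ) - 1 / (((D + (4 + d) : ℕ) : ℝ) + 2) ^ C₁) := by
    refine le_trans ?_ h1
    exact_mod_cast Finset.card_le_card hsub
  refine h3.trans (mul_le_mul ?_ (Real.rpow_le_rpow_of_exponent_le hT1 ?_) (by positivity) (Nat.cast_nonneg _))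
  · push_cast
    have : (0 : ℝ) ≤ b := Nat.cast_nonneg _
    linarith
  · have h4 : (((D + (4 + d) : ℕ) : ℝ) + 2) ^ C₁ ≤ ((D : ℝ) + 2) ^ (C₁ + b) := by
      have h5 : (D + (4 + d) + 2) ^ C₁ ≤ (D + 2) ^ (C₁ + b) :=
        (hb D).trans (Nat.pow_le_pow_right (by omega) (Nat.le_add_left _ _))
      exact_mod_cast h5
    have h6 := one_div_le_one_div_of_le (by positivity) h4
    linarith

end Pool.Agent.R351.GD.Hy
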