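import Pool.Agent.R351.GD.Hy.Win
import Pool.Agent.R351.GD.Hy.Alg
import Pool.Agent.Y118.HG.Kx

/-!
# Hyperelliptic families: tuples of fibres and relations of growing degree
-/

set_option autoImplicit false

open Module Filter Topology
open Polynomial (X C aeval)
open scoped Polynomial

namespace Pool.Agent.R351.GD.Hy

open Pool.Agent.Y118.HP Pool.Agent.Y37.GF Pool.Agent.Y118.HG
open Pool.Agent.R351.GD.H (sbE of_gen relK_fin small_card)

variable {n : ℕ}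

theorem castC (s : ℕ) : (((1 / (s : ℝ) : ℝ)) : ℂ) = ((1 / (s : ℚ) : ℚ) : ℂ) := by push_cast; rfl

theorem castR (s : ℕ) : (((1 / (s : ℚ) : ℚ)) : ℝ) = 1 / (s : ℝ) := by push_cast; rfl

/-- the fibres at `1 / s` for large `s` -/
theorem good_large (hn : Even n) {a : Fin n → ℝ} (ha : StrictMono a) {m : Fin (n + 1)} {f : ℚ[X]}
    (h0 : InGap a m 0) (hf : f.map (algebraMap ℚ ℝ) = ∏ i, (X - C (a i))) (Δ : ZDat n a m f) :
    ∃ n₀ : ℕ, ∀ s : ℕ, n₀ ≤ s → (Ez Δ.Z (1 / (s : ℝ)) ∈ SpS ℝ n ∧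
      cd ((Ez Δ.Z (1 / (s : ℝ))).map (algebraMap ℝ ℂ)) ≠ 0) ∧ (InGap a m (1 / (s : ℝ)) ∧
      CM a m (1 / (s : ℝ)) = AC a m Δ.V * (Ez Δ.Z (1 / (s : ℝ))).map (algebraMap ℝ ℂ) *
        Δ.U.map (aeval (((1 / (s : ℝ) : ℝ)) : ℂ))) := by
  obtain ⟨ε, hε, hball⟩ := Metric.eventually_nhds_iff.1
    (((Ez_mem hn ha h0 hf Δ).and (Ez_cd hn ha h0 hf Δ)).and (CM_val hn ha h0 Δ))
  obtain ⟨n₀, hn₀⟩ := exists_nat_gt (1 / ε)
  refine ⟨n₀, fun s hs => hball ?_⟩
  have h1 : (1 / ε : ℝ) < s := hn₀.trans_le (by exact_mod_cast hs)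
  have h2 : (0 : ℝ) < s := lt_trans (by positivity) h1
  rw [dist_zero_right, Real.norm_of_nonneg (by positivity)]
  rw [div_lt_iff₀ h2]
  rwa [div_lt_iff₀ hε, mul_comm] at h1

/-- all relations of degree at most `δ` over number fields of degree at most `δ` hold on the fibres of the torsors -/
def GenY {N : ℕ} (δ : ℕ) {υ : Type} (w : υ → ℂ) (a : Fin N → Fin n → ℝ) (m : Fin N → Fin (n + 1)) (f : Fin N → ℚ[X])
    (t : Fin N → ℕ) : Prop :=
  ∀ F : IntermediateField ℚ ℂ, FiniteDimensional ℚ F → finrank ℚ F ≤ δ →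
    ∀ P : MvPolynomial (υ ⊕ Fin N × Fin n × Fin n) F, P.totalDegree ≤ δ →
    MvPolynomial.aeval (Sum.elim w (px fun l => CM (a l) (m l) (1 / (t l : ℝ)))) P = 0 →
    ∀ Y ∈ Fib (fun l => (Qp n (f l)).map (aeval ((1 / (t l : ℚ) : ℚ) : ℂ))),
      MvPolynomial.aeval (Sum.elim w (px Y)) P = 0

/-- from the coordinates to the periods -/
theorem genY_of (hn : Even n) {N : ℕ} {a : Fin N → Fin n → ℝ} (ha : ∀ l, StrictMono (a l)) {m : Fin N → Fin (n + 1)}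
    {f : Fin N → ℚ[X]} (h0 : ∀ l, InGap (a l) (m l) 0)
    (hf : ∀ l, (f l).map (algebraMap ℚ ℝ) = ∏ i, (X - C (a l i))) (Δ : ∀ l, ZDat n (a l) (m l) (f l)) :
    ∃ c : ℕ, ∀ (δ : ℕ) (υ : Type) (w : υ → ℂ) (t : Fin N → ℕ),
      (∀ l, (Ez (Δ l).Z (1 / (t l : ℝ)) ∈ SpS ℝ n ∧ cd ((Ez (Δ l).Z (1 / (t l : ℝ))).map (algebraMap ℝ ℂ)) ≠ 0) ∧
        CM (a l) (m l) (1 / (t l : ℝ)) = AC (a l) (m l) (Δ l).V * (Ez (Δ l).Z (1 / (t l : ℝ))).map (algebraMap ℝ ℂ) *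
        (Δ l).U.map (aeval (((1 / (t l : ℝ) : ℝ)) : ℂ))) →
      ¬ GenY δ w a m f t → RelK (δ * c) (Sum.elim w fun x : Fin N × Fin n × Fin n => AC (a x.1) (m x.1) (Δ x.1).V x.2.1 x.2.2)
        (fun p : Fin N × Sy n => vI (Δ p.1) (t p.1) p.2) := by
  classical
  obtain ⟨c, hc⟩ := algY hn N
  refine ⟨c + 1, fun δ υ w t hgood hbad => ?_⟩
  by_contra hrel
  apply hbad
  intro F hF hFd P hP hP0 Y hY
  set w' : υ ⊕ Fin N × Fin n × Fin n → ℂ := Sum.elim w fun x => AC (a x.1) (m x.1) (Δ x.1).V x.2.1 x.2.2 with hw'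
  set Ai : Fin N → Fin n → Fin n → υ ⊕ Fin N × Fin n × Fin n := fun l i j => Sum.inr (l, i, j) with hAi
  have hAw : ∀ l, Aw w' Ai l = AC (a l) (m l) (Δ l).V := by
    intro l
    ext i j
    rfl
  set z : Fin N → ℚ := fun l => 1 / (t l : ℚ) with hz
  set U : Fin N → Matrix (Fin n) (Fin n) ℚ := fun l => (Δ l).U.map (Polynomial.eval (z l)) with hU
  have hUc : ∀ l, (U l).map (algebraMap ℚ ℂ) = (Δ l).U.map (aeval (z l : ℂ)) := fun l => map_rat _ _
  set Z : Fin N → Matrix (Fin n) (Fin n) ℂ := fun l => (Ez (Δ l).Z (1 / (t l : ℝ))).map (algebraMap ℝ ℂ) with hZ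
  have hZsp : ∀ l, Z l ∈ SpS ℂ n := fun l => SpS_map _ (hgood l).1.1
  have hCM : ∀ l, Aw w' Ai l * Z l * (U l).map (algebraMap ℚ ℂ) = CM (a l) (m l) (1 / (t l : ℝ)) := by
    intro l
    rw [hAw, hUc, (hgood l).2, castC]
  have hδ : δ ≤ δ * (c + 1) := Nat.le_mul_of_pos_right _ (Nat.succ_pos c)
  have h1 := hc F (υ ⊕ Fin N × Fin n × Fin n) w' Ai U δ Z hZsp (fun l => (hgood l).1.2) (fun P' hP' hP'0 y => by
      by_cases hne : MvPolynomial.aeval (Sum.elim (fun j => MvPolynomial.C (w' j)) MvPolynomial.X) P' =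
          (0 : MvPolynomial (Fin N × Sy n) ℂ)
      · exact of_gen hne y
      · exact absurd ⟨F, hF, hFd.trans hδ, P', hP'.trans (Nat.mul_le_mul_left _ (Nat.le_succ c)), hP'0, hne⟩ hrel)
    (MvPolynomial.rename (Sum.map Sum.inl id) P) ((MvPolynomial.totalDegree_rename_le _ _).trans hP) (by
      rw [MvPolynomial.aeval_rename, ← hP0]
      congr 2
      funext v
      rcases v with v | ⟨l, i, j⟩
      · rfl
      · show (Aw w' Ai l * Z l * (U l).map (algebraMap ℚ ℂ)) i j = CM (a l) (m l) (1 / (t l : ℝ)) i j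
        rw [hCM])
  -- the points of the fibre
  have hI := Complex.I_ne_zero
  have hpi : (Real.pi : ℂ) ≠ 0 := by exact_mod_cast Real.pi_ne_zero
  have hc0 : (-4 * Real.pi * Complex.I : ℂ) ≠ 0 := mul_ne_zero (mul_ne_zero (by norm_num) hpi) hI
  have hAJ : ∀ l, AC (a l) (m l) (Δ l).V * jm ℂ n * (AC (a l) (m l) (Δ l).V).transpose =
      (-4 * Real.pi * Complex.I : ℂ) • jm ℂ n := fun l => AC_J hn (ha l) (h0 l) (hf l) (Δ l).VJ
  have hdet : ∀ l, IsUnit (AC (a l) (m l) (Δ l).V).det := by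
    intro l
    rw [isUnit_iff_ne_zero]
    intro h2
    have := congrArg Matrix.det (hAJ l)
    rw [Matrix.det_mul, Matrix.det_mul, h2, zero_mul, zero_mul, Matrix.det_smul] at this
    exact mul_ne_zero (pow_ne_zero _ hc0) (jm_det hn) this.symm
  have hfib : ∀ j, ((AC (a j) (m j) (Δ j).V)⁻¹ * (Y j * (Δ j).V.map (aeval (z j : ℂ)))) ∈ SpS ℂ n ∧
        AC (a j) (m j) (Δ j).V * ((AC (a j) (m j) (Δ j).V)⁻¹ * (Y j * (Δ j).V.map (aeval (z j : ℂ)))) *
          (U j).map (algebraMap ℚ ℂ) = Y j := by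
    intro j
    have h2 : AC (a j) (m j) (Δ j).V * ((AC (a j) (m j) (Δ j).V)⁻¹ * (Y j * (Δ j).V.map (aeval (z j : ℂ)))) =
        Y j * (Δ j).V.map (aeval (z j : ℂ)) := by
      rw [← Matrix.mul_assoc, Matrix.mul_nonsing_inv _ (hdet j), one_mul]
    refine ⟨SpS_of_eqC hn hc0 (hAJ j) ?_, ?_⟩
    · rw [h2]
      exact CM_J (hY j) (Δ j)
    · rw [h2, hUc, Matrix.mul_assoc, ← map_aevalC_mul, (Δ j).VU, map_aevalC_one, mul_one]
  have h3 := h1 (fun j => (AC (a j) (m j) (Δ j).V)⁻¹ * (Y j * (Δ j).V.map (aeval (z j : ℂ)))) fun j => (hfib j).1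
  rw [MvPolynomial.aeval_rename] at h3
  rw [← h3]
  congr 2
  funext v
  rcases v with v | ⟨l, i, j⟩
  · rfl
  · show Y l i j = (Aw w' Ai l * ((AC (a l) (m l) (Δ l).V)⁻¹ * (Y l * (Δ l).V.map (aeval (z l : ℂ)))) *
      (U l).map (algebraMap ℚ ℂ)) i j
    rw [hAw, (hfib l).2]

open Classical in
/-- **tuples of fibres** -/
theorem tupY (hn : Even n) {N : ℕ} {a : Fin N → Fin n → ℝ} (ha : ∀ l, StrictMono (a l)) {m : Fin N → Fin (n + 1)}
    {f : Fin N → ℚ[X]} (h0 : ∀ l, InGap (a l) (m l) 0)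
    (hf : ∀ l, (f l).map (algebraMap ℚ ℝ) = ∏ i, (X - C (a l i))) (q : ℕ) :
    ∃ C₀ : ℕ, ∀ (δ : ℕ) (υ : Type) [Fintype υ], Fintype.card υ = q → ∀ (w : υ → ℂ) (T : ℕ), 1 ≤ T →
      (((Fintype.piFinset fun _ : Fin N => Finset.Icc 1 T).filter fun t =>
        ¬ ((∀ l, InGap (a l) (m l) (1 / (t l : ℝ))) ∧ GenY δ w a m f t)).card : ℝ) ≤
      C₀ * (T : ℝ) ^ ((N : ℝ) - 1 / ((δ : ℝ) + 2) ^ C₀) := by
  have Δ : ∀ l, ZDat n (a l) (m l) (f l) := fun l =>
    Classical.choice (exists_ZDat hn (ha l) (h0 l) (hf l) (coeff_ne_of_gap (h0 l) (hf l)))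
  choose n₀ hn₀ using fun l => good_large hn (ha l) (h0 l) (hf l) (Δ l)
  obtain ⟨c, hc⟩ := genY_of hn ha h0 hf Δ
  obtain ⟨C₁, hC₁⟩ := vI_tuples hn ha h0 hf Δ (q + N * (n * n))
  obtain ⟨b, hb⟩ : PB fun δ => (δ * c + 2) ^ C₁ := ((PB.id.mul (PB.const c)).add (PB.const 2)).pow C₁
  set N₀ : ℕ := ∑ l, n₀ l with hN₀
  refine ⟨C₁ + N * N₀ + b, fun δ υ _ hυ w T hT => ?_⟩
  set C₀ := C₁ + N * N₀ + b with hC
  have hT1 : (1 : ℝ) ≤ T := by exact_mod_cast hT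
  have hδ0 : (0 : ℝ) ≤ δ := Nat.cast_nonneg δ
  have hυ' : Fintype.card (υ ⊕ Fin N × Fin n × Fin n) = q + N * (n * n) := by
    rw [Fintype.card_sum, Fintype.card_prod, Fintype.card_prod, Fintype.card_fin, Fintype.card_fin, hυ]
  set w₁ : υ ⊕ Fin N × Fin n × Fin n → ℂ := Sum.elim w fun x => AC (a x.1) (m x.1) (Δ x.1).V x.2.1 x.2.2 with hw₁
  set w' : Fin (q + N * (n * n)) → ℂ := w₁ ∘ (Fintype.equivFinOfCardEq hυ').symm with hw'
  set B := (Fintype.piFinset fun _ : Fin N => Finset.Icc 1 T).filter fun t =>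
    ¬ ((∀ l, InGap (a l) (m l) (1 / (t l : ℝ))) ∧ GenY δ w a m f t) with hB
  set L := (Fintype.piFinset fun _ : Fin N => (Finset.Icc 1 T).filter fun n => 0 ≤ n).filter fun t =>
    RelK (δ * c) w' (fun p : Fin N × Sy n => vI (Δ p.1) (t p.1) p.2) with hL
  have hsub : B ⊆ B.filter (fun t => ∃ i, t i < N₀) ∪ L := by
    intro t ht
    obtain ⟨ht1, ht2⟩ := Finset.mem_filter.1 ht
    by_cases hs : ∃ i, t i < N₀
    · exact Finset.mem_union_left _ (Finset.mem_filter.2 ⟨ht, hs⟩)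
    · push Not at hs
      rw [Fintype.mem_piFinset] at ht1
      have hgood := fun l => hn₀ l (t l) (by
        have h1 : n₀ l ≤ ∑ l, n₀ l := Finset.single_le_sum (f := n₀) (fun _ _ => Nat.zero_le _) (Finset.mem_univ l)
        have := hs l
        omega)
      have ht3 : ¬ GenY δ w a m f t := fun h => ht2 ⟨fun l => (hgood l).2.1, h⟩
      refine Finset.mem_union_right _ (Finset.mem_filter.2 ⟨Fintype.mem_piFinset.2 fun i =>
        Finset.mem_filter.2 ⟨ht1 i, Nat.zero_le _⟩, relK_fin hυ' (hc δ υ w t (fun l => ⟨(hgood l).1, (hgood l).2.2⟩) ht3)⟩)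
  have hLc : (L.card : ℝ) ≤ C₁ * (T : ℝ) ^ ((N : ℝ) - 1 / ((δ : ℝ) + 2) ^ C₀) := by
    refine (hC₁ (δ * c) w' T hT).trans ?_
    refine mul_le_mul_of_nonneg_left (Real.rpow_le_rpow_of_exponent_le hT1 ?_) (Nat.cast_nonneg _)
    have h1 : (((δ * c : ℕ) : ℝ) + 2) ^ C₁ ≤ ((δ : ℝ) + 2) ^ C₀ := by
      have h2 : (δ * c + 2) ^ C₁ ≤ (δ + 2) ^ C₀ := (hb δ).trans (Nat.pow_le_pow_right (by omega) (by omega))
      exact_mod_cast h2
    have h3 := one_div_le_one_div_of_le (by positivity) h1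
    linarith
  have hSc : ((B.filter fun t => ∃ i, t i < N₀).card : ℝ) ≤
      (N * N₀ : ℕ) * (T : ℝ) ^ ((N : ℝ) - 1 / ((δ : ℝ) + 2) ^ C₀) := by
    have h1 := small_card N N₀ T (B.filter fun t => ∃ i, t i < N₀) fun t ht => by
      obtain ⟨h2, h3⟩ := Finset.mem_filter.1 ht
      have h4 := Fintype.mem_piFinset.1 (Finset.mem_filter.1 h2).1
      exact ⟨fun i => Finset.mem_Icc.1 (h4 i), h3⟩
    rcases Nat.eq_zero_or_pos N with hk | hk
    · have h2 : (B.filter fun t => ∃ i, t i < N₀).card = 0 := by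
        have h4 : N * (N₀ * T ^ (N - 1)) = 0 := by simp [hk]
        omega
      rw [h2]
      simp only [Nat.cast_zero]
      positivity
    · have h2 : ((B.filter fun t => ∃ i, t i < N₀).card : ℝ) ≤ (N * N₀ : ℕ) * (T : ℝ) ^ (N - 1) := by
        have h3 : (B.filter fun t => ∃ i, t i < N₀).card ≤ N * N₀ * T ^ (N - 1) := by
          rw [mul_assoc]
          exact h1
        exact_mod_cast h3
      refine h2.trans (mul_le_mul_of_nonneg_left ?_ (Nat.cast_nonneg _))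
      rw [← Real.rpow_natCast]
      refine Real.rpow_le_rpow_of_exponent_le hT1 ?_
      rw [Nat.cast_sub hk]
      have h4 : (1 : ℝ) ≤ ((δ : ℝ) + 2) ^ C₀ := one_le_pow₀ (by linarith)
      have h5 : 1 / ((δ : ℝ) + 2) ^ C₀ ≤ 1 := by
        rw [div_le_one (by linarith)]
        exact h4
      push_cast
      linarith
  have h1 : (B.card : ℝ) ≤ ((B.filter fun t => ∃ i, t i < N₀).card : ℝ) + L.card := by
    exact_mod_cast (Finset.card_le_card hsub).trans (Finset.card_union_le _ _)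
  have h9 : (0 : ℝ) ≤ b * (T : ℝ) ^ ((N : ℝ) - 1 / ((δ : ℝ) + 2) ^ C₀) := by positivity
  have h10 : (C₀ : ℝ) = C₁ + ((N * N₀ : ℕ) : ℝ) + b := by
    rw [hC]
    push_cast
    ring
  refine h1.trans ((add_le_add hSc hLc).trans ?_)
  have h11 : ((C₀ : ℕ) : ℝ) * (T : ℝ) ^ ((N : ℝ) - 1 / ((δ : ℝ) + 2) ^ C₀) =
      (C₁ + ((N * N₀ : ℕ) : ℝ) + b) * (T : ℝ) ^ ((N : ℝ) - 1 / ((δ : ℝ) + 2) ^ C₀) := by rw [h10]
  rw [h11]
  nlinarith [h9]

/-- relations with the constants `w` and `cc`, over number fields of degree at most `D` -/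
def RGw {q N : ℕ} (w : Fin q → ℂ) (cc : Option (Fin N × Fin n × Fin n) → ℂ) (F : Fin N → ℚ[X])
    (c : Fin N → Matrix (Fin n) (Fin n) ℂ) (D d : ℕ) : Prop :=
  ∀ (K : Type) [Field K] [NumberField K] (φ : K →+* ℂ)
    (P : MvPolynomial ((Fin q ⊕ Option (Fin N × Fin n × Fin n)) ⊕ Fin N × Fin n × Fin n) K),
    Module.finrank ℚ K ≤ D → P.totalDegree ≤ d →
    (P.map φ).eval (Sum.elim (Sum.elim w cc) fun x => c x.1 x.2.1 x.2.2) = 0 →
    ∀ x ∈ TorF (n := n) F, x.2 = 2 * Real.pi * Complex.I →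
      (P.map φ).eval (Sum.elim (Sum.elim w cc) fun y => x.1 y.1 y.2.1 y.2.2) = 0

/-- the statement for a tuple of fibres -/
def GoodY {q N : ℕ} (δ : ℕ) (w : Fin q → ℂ) (a : Fin N → Fin n → ℝ) (m : Fin N → Fin (n + 1)) (f : Fin N → ℚ[X])
    (t : Fin N → ℕ) : Prop :=
  (∀ j, StrictMono (er (a j) (m j) (1 / (t j : ℝ)))) ∧
    ((fun j => Matrix.of (cper (er (a j) (m j) (1 / (t j : ℝ))))), (2 * Real.pi * Complex.I : ℂ)) ∈
      TorF (n := n) (fun j => f j * (X - C (1 / (t j : ℚ)))) ∧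
    DG (fun j => f j * (X - C (1 / (t j : ℚ))))
      (pt (fun j => Matrix.of (cper (er (a j) (m j) (1 / (t j : ℝ))))) (2 * Real.pi * Complex.I)) δ δ ∧
    RGw w (pt (fun j => Matrix.of (cper (er (a j) (m j) 0))) (2 * Real.pi * Complex.I))
      (fun j => f j * (X - C (1 / (t j : ℚ)))) (fun j => Matrix.of (cper (er (a j) (m j) (1 / (t j : ℝ))))) δ δ

theorem good_of (hn : Even n) {q N : ℕ} {a : Fin N → Fin n → ℝ} (ha : ∀ l, StrictMono (a l)) {m : Fin N → Fin (n + 1)}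
    {f : Fin N → ℚ[X]} (hf : ∀ l, (f l).map (algebraMap ℚ ℝ) = ∏ i, (X - C (a l i))) (δ : ℕ) (w : Fin q → ℂ)
    (t : Fin N → ℕ) (hgap : ∀ l, InGap (a l) (m l) (1 / (t l : ℝ)))
    (hg : GenY (δ * δ + δ + 1) (Sum.elim w (pt (fun j => CM (a j) (m j) 0) (2 * Real.pi * Complex.I))) a m f t) :
    GoodY δ w a m f t := by
  have hgap' : ∀ j, InGap (a j) (m j) (((1 / (t j : ℚ) : ℚ)) : ℝ) := fun j => by
    rw [castR]
    exact hgap j
  have hpt : (fun j => Matrix.of (cper (er (a j) (m j) (1 / (t j : ℝ))))) =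
      fun j => CM (a j) (m j) (((1 / (t j : ℚ) : ℚ)) : ℝ) := by
    funext j
    rw [castR]
    rfl
  have hpt' : (fun j => CM (a j) (m j) (1 / (t j : ℝ))) = fun j => CM (a j) (m j) (((1 / (t j : ℚ) : ℚ)) : ℝ) := by
    funext j
    rw [castR]
  refine ⟨fun j => er_of_inGap (ha j) (hgap j), ?_, ?_, ?_⟩
  · rw [TorF_eq, hpt]
    refine ⟨?_, fun j => CM_mem hn (ha j) (hf j) (hgap' j)⟩
    have := Complex.I_ne_zero
    have h2 : (Real.pi : ℂ) ≠ 0 := by exact_mod_cast Real.pi_ne_zero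
    exact mul_ne_zero (mul_ne_zero two_ne_zero h2) this
  · intro K _ _ φ P hK hd hPv x hx
    rw [TorF_eq] at hx
    rw [hpt] at hPv
    have h3 := k_of_fib hn a ha m f hf δ δ (fun j => 1 / (t j : ℚ)) hgap' (fun M hM hMv Y hY => by
      have hv : ∀ (Y : Fin N → Matrix (Fin n) (Fin n) ℂ),
          MvPolynomial.aeval (Sum.elim (Sum.elim w (pt (fun j => CM (a j) (m j) 0) (2 * Real.pi * Complex.I))) (px Y))
            ((MvPolynomial.rename (fun o : Option (Fin N × Fin n × Fin n) =>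
              o.elim (Sum.inl (Sum.inr none)) Sum.inr) M).map (algebraMap ℚ (⊥ : IntermediateField ℚ ℂ))) =
          MvPolynomial.aeval (pt Y (2 * Real.pi * Complex.I)) M := by
        intro Y
        rw [MvPolynomial.aeval_map_algebraMap, MvPolynomial.aeval_rename]
        congr 2
        funext o
        rcases o with _ | o <;> rfl
      have h4 := hg ⊥ inferInstance (by rw [IntermediateField.finrank_bot]; omega)
        ((MvPolynomial.rename (fun o : Option (Fin N × Fin n × Fin n) =>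
              o.elim (Sum.inl (Sum.inr none)) Sum.inr) M).map (algebraMap ℚ (⊥ : IntermediateField ℚ ℂ)))
        (((totalDegree_map_le _ _).trans (MvPolynomial.totalDegree_rename_le _ _)).trans (hM.trans (by omega)))
        (by rw [hpt', hv]; exact hMv) Y hY
      rw [hv] at h4
      exact h4) K hK φ P hd (by rw [MvPolynomial.aeval_eq_eval]; exact hPv) x hx
    rw [MvPolynomial.aeval_eq_eval] at h3
    exact h3
  · intro K _ _ φ P hK hd hPv x hx hx2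
    rw [TorF_eq] at hx
    obtain ⟨K', hK'f, P', hK'D, hP'd, hP'v⟩ := abs_field φ hK P
    rw [← hP'v] at hPv ⊢
    have h5 : x.1 ∈ Fib (fun i : Fin N => (Qp n (f i)).map (aeval ((1 / (t i : ℚ) : ℚ) : ℂ))) := by
      intro j
      have := hx.2 j
      rw [hx2] at this
      exact this
    exact hg K' hK'f (hK'D.trans (by omega)) P' ((hP'd.trans hd).trans (by omega)) hPv x.1 h5

open Classical in
/-- **the final form** -/
theorem tfin (hn : Even n) (N q : ℕ) (a : Fin N → Fin n → ℝ) (f : Fin N → ℚ[X])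
    (hf : ∀ l, (f l).map (algebraMap ℚ ℝ) = ∏ i, (X - C (a l i))) (m : Fin N → Fin (n + 1))
    (h0 : ∀ l, StrictMono (er (a l) (m l) 0)) :
    ∃ C₀ : ℕ, ∀ (δ : ℕ) (w : Fin q → ℂ) (T : ℕ), 1 ≤ T →
      (((Fintype.piFinset fun _ : Fin N => Finset.Icc 1 T).filter fun t => ¬ GoodY δ w a m f t).card : ℝ) ≤
      C₀ * (T : ℝ) ^ ((N : ℝ) - 1 / ((δ : ℝ) + 2) ^ C₀) := by
  have ha : ∀ j, StrictMono (a j) := fun j => (inGap_of_er (h0 j)).1
  have hg0 : ∀ j, InGap (a j) (m j) 0 := fun j => (inGap_of_er (h0 j)).2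
  obtain ⟨C₁, hC₁⟩ := tupY hn ha hg0 hf (q + (N * (n * n) + 1))
  obtain ⟨b, hb⟩ : PB fun δ => (δ * δ + δ + 1 + 2) ^ C₁ :=
    ((((PB.id.mul PB.id).add PB.id).add (PB.const 1)).add (PB.const 2)).pow C₁
  refine ⟨C₁ + b, fun δ w T hT => ?_⟩
  have hT1 : (1 : ℝ) ≤ T := by exact_mod_cast hT
  have hδ0 : (0 : ℝ) ≤ δ := Nat.cast_nonneg δ
  have hcard : Fintype.card (Fin q ⊕ Option (Fin N × Fin n × Fin n)) = q + (N * (n * n) + 1) := by
    rw [Fintype.card_sum, Fintype.card_option, Fintype.card_prod, Fintype.card_prod, Fintype.card_fin, Fintype.card_fin,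
      Fintype.card_fin]
  have h1 := hC₁ (δ * δ + δ + 1) _ hcard (Sum.elim w (pt (fun j => CM (a j) (m j) 0) (2 * Real.pi * Complex.I))) T hT
  have h2 : ((Fintype.piFinset fun _ : Fin N => Finset.Icc 1 T).filter fun t => ¬ GoodY δ w a m f t) ⊆
      (Fintype.piFinset fun _ : Fin N => Finset.Icc 1 T).filter fun t =>
        ¬ ((∀ l, InGap (a l) (m l) (1 / (t l : ℝ))) ∧ GenY (δ * δ + δ + 1)
          (Sum.elim w (pt (fun j => CM (a j) (m j) 0) (2 * Real.pi * Complex.I))) a m f t) := by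
    intro t ht
    obtain ⟨ht1, ht2⟩ := Finset.mem_filter.1 ht
    exact Finset.mem_filter.2 ⟨ht1, fun h => ht2 (good_of hn ha hf δ w t h.1 h.2)⟩
  have h3 : ((((Fintype.piFinset fun _ : Fin N => Finset.Icc 1 T).filter fun t => ¬ GoodY δ w a m f t).card : ℕ) : ℝ) ≤
      C₁ * (T : ℝ) ^ ((N : ℝ) - 1 / (((δ * δ + δ + 1 : ℕ) : ℝ) + 2) ^ C₁) := by
    refine le_trans ?_ h1
    exact_mod_cast Finset.card_le_card h2
  refine h3.trans (mul_le_mul ?_ (Real.rpow_le_rpow_of_exponent_le hT1 ?_) (by positivity) (Nat.cast_nonneg _))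
  · push_cast
    have : (0 : ℝ) ≤ b := Nat.cast_nonneg _
    linarith
  · have h4 : (((δ * δ + δ + 1 : ℕ) : ℝ) + 2) ^ C₁ ≤ ((δ : ℝ) + 2) ^ (C₁ + b) := by
      have h5 : (δ * δ + δ + 1 + 2) ^ C₁ ≤ (δ + 2) ^ (C₁ + b) :=
        (hb δ).trans (Nat.pow_le_pow_right (by omega) (Nat.le_add_left _ _))
      exact_mod_cast h5
    have h6 := one_div_le_one_div_of_le (by positivity) h4
    linarith

end Pool.Agent.R351.GD.Hy
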