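import Pool.Agent.R351.GD.Hy.Inp
import Pool.Agent.R351.GD.H.GenM
import Pool.Agent.R351.GD.H.Tup

/-!
# Hyperelliptic families: windows and tuples for the Cayley coordinates
-/

set_option autoImplicit false

open Module Filter Topology
open Polynomial (X C)

namespace Pool.Agent.R351.GD.Hy

open Pool.Agent.Y118.HP Pool.Agent.Y37.GF Pool.Agent.Y118.HG
open Pool.Agent.R351.GD.H (sbE of_gen)

variable {n : ℕ}

/-- the coordinates at `1 / s` -/
noncomputable def vI {a : Fin n → ℝ} {m : Fin (n + 1)} {f : Polynomial ℚ} (Δ : ZDat n a m f) (s : ℕ) (p : Sy n) : ℂ :=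
  co ((Ez Δ.Z (1 / (s : ℝ))).map (algebraMap ℝ ℂ)) p

theorem vl_eq {a : Fin n → ℝ} {m : Fin (n + 1)} {f : Polynomial ℚ} (Δ : ZDat n a m f) {G t g : ℕ} (h : G * g ≤ t) :
    vl Δ G t g = vI Δ (t - G * g) := by
  funext p
  unfold vl vI
  rw [Nat.cast_sub h]

/-- windows for the Cayley coordinates, in terms of relations -/
theorem vI_window (hn : Even n) {a : Fin n → ℝ} (ha : StrictMono a) {m : Fin (n + 1)} {f : Polynomial ℚ}
    (h0 : InGap a m 0) (hf : f.map (algebraMap ℚ ℝ) = ∏ i, (X - C (a i))) (Δ : ZDat n a m f) (N : ℕ) :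
    ∃ (M : ℕ) (E : ℕ → ℕ), PB E ∧ ∀ (δ : ℕ) (w : Fin N → ℂ) (H t : ℕ), (H + 2) ^ E δ ≤ t →
    ∀ S : Finset ℕ, (∀ s ∈ S, t < s ∧ s ≤ t + H ∧ RelK δ w (vI Δ s)) → S.card ≤ M := by
  classical
  have ha0 : ∀ i, a i ≠ 0 := fun i => ne_zero_of_gap h0 i
  have hf0 : f.coeff 0 ≠ 0 := coeff_ne_of_gap h0 hf
  obtain ⟨G, hG0, hsep⟩ := exists_G0 a
  choose Ev hEvp hEv using inpG hn ha ha0 h0 hf hf0 Δ hG0 hsep (le_refl G)
  obtain ⟨E, hEp, hE⟩ := awh_exp Ev hEvp (σ := Sy n) 1 N 1 1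
  refine ⟨G * N, fun δ => 2 * E δ, (PB.const 2).mul hEp, fun δ w H m hm S hS => ?_⟩
  have hm : (H + 2) ^ (2 * E δ) ≤ m := hm
  have hH3 : (H + 1 + 2) ^ E δ ≤ m := by
    refine le_trans ?_ hm
    rw [pow_mul]
    refine Nat.pow_le_pow_left ?_ _
    nlinarith
  have hρ : ∀ ρ : ℕ, 1 ≤ ρ → ρ ≤ G → (S.filter fun s => G ∣ m + H + ρ - s).card ≤ N := by
    intro ρ hρ1 hρG
    set t := m + H + ρ with ht
    obtain ⟨S', hS', h⟩ := hE δ ℂ ℕ (fun t => t) (fun t g => vl Δ G t g)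
      (fun N Δ0 H t ht g hg hgb P hP hP0 => hEv N Δ0 H t ht g hg hgb P hP hP0) (H + 1) t (hH3.trans (by omega))
      (Fin N) w Finset.univ (by rw [Finset.card_univ, Fintype.card_fin]) (Pool.Agent.Y916.Om.Dom.univ w)
    refine le_trans ?_ hS'
    refine Finset.card_le_card_of_injOn (fun s => (t - s) / G) (fun s hs => ?_) (fun s hs s' hs' h2 => ?_)
    · obtain ⟨hs1, hs2⟩ := Finset.mem_filter.1 (Finset.mem_coe.1 hs)
      obtain ⟨h1, h2, F, hF, hFd, P, hP, hP0, hne⟩ := hS s hs1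
      by_contra hsS
      have hmul : G * ((t - s) / G) = t - s := Nat.mul_div_cancel' hs2
      have hts : t - G * ((t - s) / G) = s := by
        rw [hmul]
        omega
      have hpos : 0 < t - s := by omega
      have hu1 : 1 ≤ (t - s) / G := Nat.div_pos (Nat.le_of_dvd hpos hs2) hG0
      have hu2 : (t - s) / G ≤ H + 1 := by
        refine Nat.div_le_of_le_mul ?_
        have h3 : t - s ≤ H + G := by omega
        have h4 : H ≤ G * H := Nat.le_mul_of_pos_left _ hG0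
        rw [Nat.mul_succ]
        omega
      have h3 := h (fun _ => (t - s) / G) (fun a b _ => Subsingleton.elim a b) fun _ => ⟨hu1, hu2, hsS⟩
      have h4 := h3 F hF hFd (fun p : Fin 1 × Sy n => vI Δ s p.2) (fun p => ⟨1, one_ne_zero, by
          have h5 : vI Δ s p.2 - ((1 : F) : ℂ) * vl Δ G t ((t - s) / G) p.2 = 0 := by
            rw [vl_eq Δ (by rw [hmul]; omega), hts]
            push_cast
            ring
          show vI Δ s p.2 - ((1 : F) : ℂ) * vl Δ G t ((t - s) / G) p.2 ∈ _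
          rw [h5]
          exact Submodule.zero_mem _⟩)
        (MvPolynomial.rename (Sum.map id fun o => ((0 : Fin 1), o)) P)
        ((MvPolynomial.totalDegree_rename_le _ _).trans hP) (by
          rw [MvPolynomial.aeval_rename, ← hP0]
          congr 2
          funext v
          rcases v with v | v <;> rfl)
      apply hne
      refine MvPolynomial.funext fun y => ?_
      rw [map_zero, sbE]
      have h5 := of_gen h4 fun p => y p.2
      rw [MvPolynomial.aeval_rename] at h5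
      rw [← h5]
      congr 2
      funext v
      rcases v with v | v <;> rfl
    · obtain ⟨hs1, hs2⟩ := Finset.mem_filter.1 (Finset.mem_coe.1 hs)
      obtain ⟨hs3, hs4⟩ := Finset.mem_filter.1 (Finset.mem_coe.1 hs')
      have h1 := hS s hs1
      have h3 := hS s' hs3
      have h4 : G * ((t - s) / G) = t - s := Nat.mul_div_cancel' hs2
      have h5 : G * ((t - s') / G) = t - s' := Nat.mul_div_cancel' hs4
      have h6 : (t - s) / G = (t - s') / G := h2
      rw [h6, h5] at h4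
      omega
  have hsub : S ⊆ (Finset.Icc 1 G).biUnion fun ρ => S.filter fun s => G ∣ m + H + ρ - s := by
    intro s hs
    have h1 := hS s hs
    refine Finset.mem_biUnion.2 ⟨G - (m + H - s) % G, ?_, Finset.mem_filter.2 ⟨hs, ?_⟩⟩
    · have h2 := Nat.mod_lt (m + H - s) hG0
      rw [Finset.mem_Icc]
      omega
    · have h2 := Nat.mod_lt (m + H - s) hG0
      have h3 := Nat.div_add_mod (m + H - s) G
      refine ⟨(m + H - s) / G + 1, ?_⟩
      rw [Nat.mul_succ]
      omega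
  refine (Finset.card_le_card hsub).trans (Finset.card_biUnion_le.trans ?_)
  refine (Finset.sum_le_card_nsmul _ _ N fun ρ h => ?_).trans ?_
  · obtain ⟨h1, h2⟩ := Finset.mem_Icc.1 h
    exact hρ ρ h1 h2
  · rw [Nat.card_Icc, Nat.add_sub_cancel, smul_eq_mul]

open Classical in
/-- tuples, for the Cayley coordinates -/
theorem vI_tuples (hn : Even n) {N : ℕ} {a : Fin N → Fin n → ℝ} (ha : ∀ l, StrictMono (a l)) {m : Fin N → Fin (n + 1)}
    {f : Fin N → Polynomial ℚ} (h0 : ∀ l, InGap (a l) (m l) 0)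
    (hf : ∀ l, (f l).map (algebraMap ℚ ℝ) = ∏ i, (X - C (a l i))) (Δ : ∀ l, ZDat n (a l) (m l) (f l)) (q : ℕ) :
    ∃ C : ℕ, ∀ (δ : ℕ) (w : Fin q → ℂ) (T : ℕ), 1 ≤ T →
      (((Fintype.piFinset fun _ : Fin N => (Finset.Icc 1 T).filter fun n => 0 ≤ n).filter fun t =>
        RelK δ w (fun p : Fin N × Sy n => vI (Δ p.1) (t p.1) p.2)).card : ℝ) ≤
      C * (T : ℝ) ^ ((N : ℝ) - 1 / ((δ : ℝ) + 2) ^ C) := by
  obtain ⟨C, hC⟩ := gen_tuplesM (Fin N) (fun θ s => vI (Δ θ) s) 0 N q (by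
    intro M'
    choose M E hEp hE using fun θ => vI_window hn (ha θ) (h0 θ) (hf θ) (Δ θ) M'
    refine ⟨∑ θ, M θ, fun δ => ∑ θ, E θ δ, PB.sum _ fun θ _ => hEp θ, fun θ δ w H m hm S hS => ?_⟩
    have h1 : E θ δ ≤ ∑ θ, E θ δ :=
      Finset.single_le_sum (f := fun θ => E θ δ) (fun _ _ => Nat.zero_le _) (Finset.mem_univ θ)
    have h2 : M θ ≤ ∑ θ, M θ := Finset.single_le_sum (f := M) (fun _ _ => Nat.zero_le _) (Finset.mem_univ θ)
    exact (hE θ δ w H m ((Nat.pow_le_pow_right (by omega) h1).trans hm) S fun s hs => (hS s hs).2).trans h2)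
  exact ⟨C, fun δ w T hT => hC id δ w T hT⟩

end Pool.Agent.R351.GD.Hy
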