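import Pool.Agent.R351.GD.Hy.Tup
import Pool.Agent.Y118.HG.Trd

/-!
# Hyperelliptic families: windows of fibres and relations of growing degree
-/

set_option autoImplicit false

open Module Filter Topology
open Polynomial (X C aeval)
open scoped Polynomial

namespace Pool.Agent.R351.GD.Hy

open Pool.Agent.Y118.HP Pool.Agent.Y37.GF Pool.Agent.Y118.HG
open Pool.Agent.R351.GD.H (sbE of_gen)
open Pool.Agent.Y916.Om (Dom)

variable {n : ℕ}

/-- arbitrary constants, in addition to dominated ones -/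
theorem dom_sum {υ₁ υ₂ : Type} [Fintype υ₁] {A B : ℕ} (w₁ : υ₁ → ℂ) {w₂ : υ₂ → ℂ} {T : Finset υ₂}
    (h : Dom A B w₂ T) : Dom A B (Sum.elim w₁ w₂) (Finset.univ.disjSum T) := by
  intro K W hW h1 hT Δ
  have h3 : W ⊔ Submodule.span K (Set.range (Sum.elim w₁ w₂)) = W ⊔ Submodule.span K (Set.range w₂) := by
    apply le_antisymm
    · refine sup_le le_sup_left (Submodule.span_le.2 ?_)
      rintro _ ⟨j | j, rfl⟩
      · exact Submodule.mem_sup_left (hT (Sum.inl j) (Finset.inl_mem_disjSum.2 (Finset.mem_univ j)))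
      · exact Submodule.mem_sup_right (Submodule.subset_span ⟨j, rfl⟩)
    · refine sup_le le_sup_left (Submodule.span_le.2 ?_)
      rintro _ ⟨j, rfl⟩
      exact Submodule.mem_sup_right (Submodule.subset_span ⟨Sum.inr j, rfl⟩)
  rw [h3]
  exact h K W hW h1 (fun j hj => hT (Sum.inr j) (Finset.inr_mem_disjSum.2 hj)) Δ

/-- additional constants -/
theorem relK_map {υ υ' κ : Type} {δ : ℕ} {w : υ → ℂ} {w' : υ' → ℂ} {y : κ → ℂ} (e : υ → υ') (he : ∀ v, w' (e v) = w v)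
    (h : RelK δ w y) : RelK δ w' y := by
  obtain ⟨F, hF, hFd, P, hP, hP0, hne⟩ := h
  refine ⟨F, hF, hFd, MvPolynomial.rename (Sum.map e id) P, (MvPolynomial.totalDegree_rename_le _ _).trans hP, ?_, ?_⟩
  · rw [MvPolynomial.aeval_rename, ← hP0]
    congr 2
    funext v
    rcases v with v | v
    · exact he v
    · rfl
  · intro h6
    apply hne
    refine MvPolynomial.funext fun z => ?_
    rw [map_zero, sbE]
    have h7 := of_gen h6 z
    rw [MvPolynomial.aeval_rename] at h7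
    rw [← h7]
    congr 2
    funext v
    rcases v with v | v
    · exact (he v).symm
    · rfl

/-- **windows of fibres** -/
theorem wfinY (hn : Even n) (a : Fin n → ℝ) (f : ℚ[X]) (hf : f.map (algebraMap ℚ ℝ) = ∏ i, (X - C (a i)))
    (m : Fin (n + 1)) (h0 : StrictMono (er a m 0)) :
    ∃ G0 : ℕ, ∀ G : ℕ, G0 ≤ G → ∀ k q : ℕ, ∃ C₀ : ℕ, ∀ δ H t : ℕ, (H + 2) ^ (δ + 2) ^ C₀ ≤ t →
      (∀ u : ℕ, u ≤ H → G * u < t ∧ StrictMono (er a m (1 / ((t - G * u : ℕ) : ℝ)))) ∧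
      ∀ w : Fin q → ℂ, ∃ S : Finset ℕ,
        (S.card : Cardinal) ≤ q + Algebra.trdeg ℚ (IntermediateField.adjoin ℚ (Set.range
          (pt (fun _ : Fin 1 => Matrix.of (cper (er a m 0))) (2 * Real.pi * Complex.I)))) ∧
        2 * S.card ≤ 2 * q + n * (n + 1) + 2 ∧
        ∀ u : Fin k → ℕ, Function.Injective u → (∀ j, 1 ≤ u j ∧ u j ≤ H ∧ u j ∉ S) →
          GoodY δ w (fun _ => a) (fun _ => m) (fun _ => f) (fun j => t - G * u j) := by
  classical
  have ha : StrictMono a := (inGap_of_er h0).1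
  have hg0 : InGap a m 0 := (inGap_of_er h0).2
  have ha0 : ∀ i, a i ≠ 0 := fun i => ne_zero_of_gap hg0 i
  have hf0 : f.coeff 0 ≠ 0 := coeff_ne_of_gap hg0 hf
  have Δ : ZDat n a m f := Classical.choice (exists_ZDat hn ha hg0 hf hf0)
  obtain ⟨Tc, hTc1, hTc2, hT1, hT2⟩ := exists_Tc hn ha hg0 hf
  obtain ⟨G0, hG0, hsep⟩ := exists_G0 a
  refine ⟨G0, fun G hG k q => ?_⟩
  -- the fixed constants
  set w₂ : (Option (Fin k × Fin n × Fin n) ⊕ (Fin k × Fin n × Fin n)) ⊕ Tc → ℂ :=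
    Sum.elim (Sum.elim (pt (fun _ : Fin k => CM a m 0) (2 * Real.pi * Complex.I)) fun x => AC a m Δ.V x.2.1 x.2.2)
      fun z => (z : ℂ) with hw₂
  set T₂ : Finset ((Option (Fin k × Fin n × Fin n) ⊕ (Fin k × Fin n × Fin n)) ⊕ Tc) :=
    Finset.univ.map ⟨Sum.inr, Sum.inr_injective⟩ with hT₂
  have hTcard : T₂.card = Tc.card := by rw [hT₂, Finset.card_map, Finset.card_univ, Fintype.card_coe]
  have hwT : w₂ '' (T₂ : Set _) = (Tc : Set ℂ) := by
    ext z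
    constructor
    · rintro ⟨x, hx, rfl⟩
      rw [hT₂, Finset.coe_map] at hx
      obtain ⟨z', -, rfl⟩ := hx
      exact z'.2
    · intro hz
      refine ⟨Sum.inr ⟨z, hz⟩, ?_, rfl⟩
      rw [hT₂, Finset.mem_coe, Finset.mem_map]
      exact ⟨⟨z, hz⟩, Finset.mem_univ _, rfl⟩
  have hTalg : ∀ j, IsAlgebraic (Algebra.adjoin ℚ (w₂ '' (T₂ : Set _))) (w₂ j) := by
    rw [hwT]
    rintro (((_ | ⟨l, i, j⟩) | x) | z)
    · exact hT2
    · exact hT1 i j
    · have hL : AC a m Δ.V x.2.1 x.2.2 ∈ Subalgebra.algebraicClosure (Algebra.adjoin ℚ (Tc : Set ℂ)) ℂ := by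
        unfold AC
        rw [Matrix.mul_apply]
        refine Subalgebra.sum_mem _ fun k _ => ?_
        refine (hT1 _ k).mul ?_
        rw [Matrix.map_apply]
        have h1 : (aeval (0 : ℂ) (Δ.V k x.2.2) : ℂ) = algebraMap ℚ ℂ (aeval (0 : ℚ) (Δ.V k x.2.2)) := by
          rw [← Polynomial.aeval_algebraMap_apply ℂ (0 : ℚ) (Δ.V k x.2.2), map_zero]
        rw [h1, IsScalarTower.algebraMap_apply ℚ (Algebra.adjoin ℚ (Tc : Set ℂ)) ℂ]
        exact isAlgebraic_algebraMap _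
      exact hL
    · have h1 : w₂ (Sum.inr z) = algebraMap (Algebra.adjoin ℚ (Tc : Set ℂ)) ℂ
        ⟨(z : ℂ), Algebra.subset_adjoin z.2⟩ := rfl
      rw [h1]
      exact isAlgebraic_algebraMap _
  obtain ⟨A, B, hAB⟩ := Dom.exists w₂ T₂ hTalg
  choose Ev hEvp hEv using inpG hn ha ha0 hg0 hf hf0 Δ hG0 hsep hG
  obtain ⟨E1, hE1p, hE1⟩ := awh_exp Ev hEvp (σ := Sy n) k (q + Tc.card) A B
  obtain ⟨c, hc⟩ := genY_of hn (N := k) (a := fun _ => a) (fun _ => ha) (m := fun _ => m) (f := fun _ => f)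
    (fun _ => hg0) (fun _ => hf) (fun _ => Δ)
  obtain ⟨n₀, hn₀⟩ := good_large hn ha hg0 hf Δ
  obtain ⟨C₀, hC₀⟩ : PB fun δ => E1 ((δ * δ + δ + 1) * c) + (G + 1 + n₀) :=
    (hE1p.comp ((((PB.id.mul PB.id).add PB.id).add (PB.const 1)).mul (PB.const c))).add (PB.const _)
  refine ⟨C₀, fun δ H t ht => ?_⟩
  have hH2 : 1 ≤ H + 2 := by omega
  have ht' : (H + 2) ^ (E1 ((δ * δ + δ + 1) * c) + (G + 1 + n₀)) ≤ t := (Nat.pow_le_pow_right hH2 (hC₀ δ)).trans ht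
  have ht1 : (H + 2) ^ E1 ((δ * δ + δ + 1) * c) ≤ t := (Nat.pow_le_pow_right hH2 (Nat.le_add_right _ _)).trans ht'
  have ht2 : G * H + n₀ + 1 ≤ t := by
    have h1 : (H + 2) ^ (G + 1 + n₀) ≤ t := (Nat.pow_le_pow_right hH2 (Nat.le_add_left _ _)).trans ht'
    refine le_trans ?_ h1
    have h2 : G + 1 ≤ 2 ^ G := Nat.lt_two_pow_self
    have h3 : 2 ^ G ≤ (H + 2) ^ G := Nat.pow_le_pow_left (by omega) _
    have h4 : n₀ + 1 ≤ 2 ^ n₀ := Nat.lt_two_pow_self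
    have h5 : 2 ^ n₀ ≤ (H + 2) ^ n₀ := Nat.pow_le_pow_left (by omega) _
    have h6 : (G + 1) * (H + 2) ≤ (H + 2) ^ (G + 1) := by
      rw [pow_succ]
      exact Nat.mul_le_mul_right _ (h2.trans h3)
    have h7 : (G + 1) * (H + 2) * (n₀ + 1) ≤ (H + 2) ^ (G + 1 + n₀) := by
      rw [pow_add]
      exact Nat.mul_le_mul h6 (h4.trans h5)
    refine le_trans ?_ h7
    nlinarith [Nat.zero_le (G * H * n₀), Nat.zero_le (G * H), Nat.zero_le (G * n₀), Nat.zero_le (H * n₀)]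
  have hlt : ∀ g ≤ H, G * g + n₀ + 1 ≤ t := fun g hg => by
    have := Nat.mul_le_mul_left G hg
    omega
  have hgood := fun g (hg : g ≤ H) => hn₀ (t - G * g) (by have := hlt g hg; omega)
  refine ⟨fun g hg => ⟨by have := hlt g hg; omega, er_of_inGap ha (hgood g hg).2.1⟩, fun w => ?_⟩
  obtain ⟨S, hS, h⟩ := hE1 ((δ * δ + δ + 1) * c) ℂ ℕ (fun t => t) (fun t g => vl Δ G t g)
    (fun N Δ0 H t ht g hg hgb P hP hP0 => hEv N Δ0 H t ht g hg hgb P hP hP0) H t ht1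
    (Fin q ⊕ ((Option (Fin k × Fin n × Fin n) ⊕ (Fin k × Fin n × Fin n)) ⊕ Tc)) (Sum.elim w w₂) (Finset.univ.disjSum T₂)
    (by rw [Finset.card_disjSum, Finset.card_univ, Fintype.card_fin, hTcard]) (dom_sum w hAB)
  refine ⟨S, ?_, by omega, fun u hu huS => ?_⟩
  · calc (S.card : Cardinal) ≤ ((q + Tc.card : ℕ) : Cardinal) := by exact_mod_cast hS
      _ = (q : Cardinal) + (Tc.card : Cardinal) := by push_cast; rfl
      _ ≤ _ := add_le_add le_rfl hTc1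
  · have hu3 : ∀ j, u j ≤ H := fun j => (huS j).2.1
    refine good_of hn (fun _ => ha) (fun _ => hf) δ w _ (fun j => (hgood (u j) (hu3 j)).2.1) ?_
    by_contra hbad
    obtain ⟨F, hF, hFd, P, hP, hP0, hne⟩ := relK_map (w' := Sum.elim w w₂)
      (Sum.elim (Sum.elim Sum.inl fun o => Sum.inr (Sum.inl (Sum.inl o))) fun x => Sum.inr (Sum.inl (Sum.inr x)))
      (by rintro ((v | v) | v) <;> rfl) (hc (δ * δ + δ + 1) _ _ (fun j => t - G * u j)
        (fun j => ⟨(hgood (u j) (hu3 j)).1, (hgood (u j) (hu3 j)).2.2⟩) hbad)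
    apply hne
    refine h u hu huS F hF hFd (fun p => vI Δ (t - G * u p.1) p.2) (fun p => ⟨1, one_ne_zero, ?_⟩) P hP hP0
    have h5 : vI Δ (t - G * u p.1) p.2 - ((1 : F) : ℂ) * vl Δ G t (u p.1) p.2 = 0 := by
      rw [vl_eq Δ (by have := hlt _ (hu3 p.1); omega)]
      push_cast
      ring
    show vI Δ (t - G * u p.1) p.2 - ((1 : F) : ℂ) * vl Δ G t (u p.1) p.2 ∈ _
    rw [h5]
    exact Submodule.zero_mem _

end Pool.Agent.R351.GD.Hy
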